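import Mathlib
import Pool.Agent.Helper605.FT.A
import Pool.Agent.Helper732.FT2.Base

set_option autoImplicit false

namespace Pool.Agent.Helper722.FX

open Pool.Agent.Helper605.FT Pool.Agent.Helper732.FT2

/-- start flag of `X(m)` -/
def sX (m : ℕ) : List ℕ := 3 :: 2 :: 1 :: m :: 4 :: 6 :: 5 :: List.range' 7 (m - 8)

/-- start flag of `Pi(m)` -/
def sP (m : ℕ) : List ℕ := 3 :: 2 :: 1 :: m :: 4 :: 6 :: 5 :: List.range' 7 (m - 7)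

/-- end flag of `X(m)` -/
def eX (m : ℕ) : List ℕ := (m - 2) :: m :: 4 :: (List.range' 5 (m - 7) ++ [3, 2, 1])

/-- start flag of `Y(m)` -/
def sY (m : ℕ) : List ℕ := 4 :: (m - 2) :: m :: (List.range' 5 (m - 7) ++ [3, 2, 1])

/-- end flag of `Y(m)` -/
def eY (m : ℕ) : List ℕ := 1 :: 3 :: 2 :: 4 :: 6 :: 5 :: (List.range' 7 (m - 8) ++ [m])

/-- the long walk -/
def lw (m : ℕ) : List ℕ := (m - 2) :: m :: ((List.range' 7 (m - 9)).reverse ++ [5, 6, 4, m - 1])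

/-- the special sets -/
def T (n k : ℕ) : Finset ℕ := {1, 2, 3} ∪ Finset.Icc (n - k + 4) n

/-- the last sets of the lists -/
def E (n k : ℕ) : Finset ℕ := {1, 3} ∪ Finset.Icc (n - k + 3) n

/-- a walk through `x` -/
def WW (x : ℕ) (w : List ℕ) : List (Finset ℕ) := ((walk w).dropLast).map (insert x)

/-- the explicit part of the low phase -/
def rest (m : ℕ) : List (Finset ℕ) :=
  WW (m + 1) (lw m) ++ ({m - 1, 4} :: (WW (m - 1) (sY m) ++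
    ({m - 1, 1} :: WW (m + 1) [m - 1, 1, 2, 3, 1])))

/-- the pairs used in the walk of `m` and the chord `{1,3}` -/
def HU (m : ℕ) (p : Finset ℕ) : Prop :=
  p = {1, 3} ∨ ∃ u v : ℕ, [u, v] <:+: (m - 2) :: m :: (sX (m - 1)).reverse ∧ p = {u, v}

/-- flexibility -/
def Flex : Prop := ∀ n, 8 ≤ n → ∀ (s' : List ℕ) (p x q : ℕ) (e' : List ℕ),
  (s' ++ [p, x]).length = n → (s' ++ [p, x]).Nodup → (x :: q :: e').Perm (s' ++ [p, x]) → q ≠ p →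
  PV (s' ++ [p, x]) (x :: q :: e')

/-- the start of phase 2 -/
def st : List ℕ → List (Finset ℕ)
  | a :: b :: c :: d :: _ => [{a, b, c}, {a, c}, {a, c, d}]
  | _ => []

/-- flexibility with prescribed low phases -/
def FlexQ : Prop := ∀ n, 9 ≤ n → ∀ (s' : List ℕ) (p x q : ℕ) (e' : List ℕ),
  (s' ++ [p, x]).length = n → (s' ++ [p, x]).Nodup → (x :: q :: e').Perm (s' ++ [p, x]) → q ≠ p →
  ∃ π, PVf (s' ++ [p, x]) (x :: q :: e') π ∧ π 1 = walk (s' ++ [p, x]) ∧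
    (π 2).take 3 = st (s' ++ [p, x])

/-- the lists of `Pi(m)`, used for `k ≥ 3` -/
def pg (m : ℕ) (X Y : ℕ → List (Finset ℕ)) (k : ℕ) : List (Finset ℕ) :=
  X k ++ (Y (k - 1)).map (insert (m - 1))

structure PG (m : ℕ) (s : List ℕ) (π : ℕ → List (Finset ℕ)) : Prop where
  len : ∀ k, 3 ≤ k → (π k).length = 2 * (m - 1).choose k
  ok : ∀ k, 3 ≤ k → Ok (π k)
  card : ∀ k, 3 ≤ k → ∀ a ∈ π k, a.card = k ∨ a.card = k + 1
  sub : ∀ k, 3 ≤ k → ∀ a ∈ π k, a ⊆ Finset.Icc 1 m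
  head : ∀ k, 3 ≤ k → k < m → (π k).head? = some ((s ++ [m - 1]).take (k + 1)).toFinset
  last : ∀ k, 3 ≤ k → k < m → (π k).getLast? = some (((m - 1) :: eY m).take k).toFinset
  cross : ∀ k l, 3 ≤ k → k < l → ∀ a ∈ π k, ∀ b ∈ π l, ¬ b ⊆ a


structure RestP (m : ℕ) : Prop where
  ok : Ok (rest m)
  len : (rest m).length = 4 * m - 5
  head : (rest m).head? = some {m - 2, m, m + 1}
  last : (rest m).getLast? = some {1, 3, m + 1}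
  mem : ∀ a ∈ rest m, m - 1 ∈ a ∨ m + 1 ∈ a
  card : ∀ a ∈ rest m, a.card = 2 ∨ a.card = 3
  sub : ∀ a ∈ rest m, a ⊆ Finset.Icc 1 (m + 1)
  mem3 : ∀ a ∈ rest m, a.card = 3 → (∃ p, HU m p ∧ p.card = 2 ∧ p ⊆ Finset.Icc 1 m ∧ a = insert (m + 1) p) ∨
    (∃ b ∈ walk (sY m), b.card = 2 ∧ a = insert (m - 1) b)
  mem2 : ∀ a ∈ rest m, a.card = 2 → (m - 1 ∈ a ∧ m + 1 ∉ a) ∨ (m + 1 ∈ a ∧ m - 1 ∉ a ∧ m - 2 ∉ a)


/-- properties of the low phase list -/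
structure LowP (m : ℕ) (R L : List (Finset ℕ)) : Prop where
  ok : Ok L
  len : L.length = R.length + (4 * m - 5)
  head : L.head? = R.head?
  last : L.getLast? = some {1, 3, m + 1}
  card : ∀ a ∈ L, a.card = 2 ∨ a.card = 3
  sub : ∀ a ∈ L, a ⊆ Finset.Icc 1 (m + 1)
  mem3 : ∀ a ∈ L, a.card = 3 → a ∈ R ∨
    (∃ p, HU m p ∧ p.card = 2 ∧ p ⊆ Finset.Icc 1 m ∧ a = insert (m + 1) p) ∨
    (∃ b ∈ walk (sY m), b.card = 2 ∧ a = insert (m - 1) b)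
  mem2 : ∀ a ∈ L, a.card = 2 → a ∈ R ∨ (m - 1 ∈ a ∧ m + 1 ∉ a) ∨
    (m + 1 ∈ a ∧ m - 1 ∉ a ∧ m - 2 ∉ a)

/-- the chain used in the recursion -/
structure BF (n : ℕ) (c : ℕ → List (Finset ℕ)) : Prop where
  len : ∀ k, 3 ≤ k → k + 1 ≤ n → (c k).length + 1 = 2 * (n - 1).choose (k - 1)
  ok : ∀ k, 3 ≤ k → k + 1 ≤ n → Ok (c k)
  card : ∀ k, 3 ≤ k → k + 1 ≤ n → ∀ a ∈ c k, a.card = k - 1 ∨ a.card = k
  sub : ∀ k, 3 ≤ k → k + 1 ≤ n → ∀ a ∈ c k, a ⊆ Finset.Icc 1 n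
  head3 : (c 3).head? = some {1, 3, n - 1}
  head : ∀ k, 4 ≤ k → k + 1 ≤ n → (c k).head? = some ((sP (n - 1)).take k).toFinset
  last : ∀ k, 3 ≤ k → k + 1 ≤ n → (c k).getLast? = some (E n k)
  cross : ∀ k l, 3 ≤ k → k < l → l + 1 ≤ n → ∀ a ∈ c k, ∀ b ∈ c l, ¬ b ⊆ a
  inv : ∀ k, 3 ≤ k → k + 1 ≤ n → ∀ b ∈ c k, ¬ b ⊆ T n k
  H : ∀ b ∈ c 3, b.card = 2 → ¬ HU n b

/-- the next chain -/
def nextB (n : ℕ) (X Y c : ℕ → List (Finset ℕ)) (k : ℕ) : List (Finset ℕ) :=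
  if k = 3 then (X 2).drop 2 ++ rest n
  else pg n X Y (k - 1) ++ (c (k - 1)).map (insert (n + 1))

/-- the C side of the construction -/
structure CSide (n : ℕ) (S : List ℕ) (c : ℕ → List (Finset ℕ)) : Prop where
  c1 : c 1 = [(S.take 1).toFinset, ∅, {n - 2}]
  len2 : (c 2).length = 2 * (n - 1) - 1
  len3 : (c 3).length = 2 * (n - 1).choose 2 + 1
  len : ∀ k, 4 ≤ k → k + 1 ≤ n → (c k).length = 2 * (n - 1).choose (k - 1) - 1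
  ok : ∀ k, 1 ≤ k → k + 1 ≤ n → Ok (c k)
  card : ∀ k, 1 ≤ k → k + 1 ≤ n → ∀ a ∈ c k, a.card = k - 1 ∨ a.card = k
  sub : ∀ k, 1 ≤ k → k + 1 ≤ n → ∀ a ∈ c k, a ⊆ Finset.Icc 1 n
  head : ∀ k, 1 ≤ k → k + 1 ≤ n → (c k).head? = some (S.take k).toFinset
  last2 : (c 2).getLast? = some {n - 2, n}
  last : ∀ k, 3 ≤ k → k + 1 ≤ n → (c k).getLast? = some (E n k)
  cross : ∀ k l, 1 ≤ k → k < l → l + 1 ≤ n → ∀ a ∈ c k, ∀ b ∈ c l, ¬ b ⊆ a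
  inv : ∀ k, 4 ≤ k → k + 1 ≤ n → ∀ b ∈ c k, ¬ b ⊆ T n k
  rev : Ok (c (n - 1)).reverse

/-- the lists of the C side, `m = n - 1` -/
def topC (m : ℕ) (s : List ℕ) (X Y c : ℕ → List (Finset ℕ)) (k : ℕ) : List (Finset ℕ) :=
  if k = 1 then [(s.take 1).toFinset, ∅, {m - 1}]
  else if k = 2 then X 1 ++ [{m - 2, m + 1}, {m + 1}, {m - 1, m + 1}]
  else if k = 3 then X 2 ++ rest m
  else pg m X Y (k - 1) ++ (c (k - 1)).map (insert (m + 1))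

end Pool.Agent.Helper722.FX
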