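import Mathlib
import Pool.Agent.Helper605.FT.A
import Pool.Agent.Helper732.FT2.Base
import Pool.Agent.Helper722.FX.Defs

set_option autoImplicit false

namespace Pool.Agent.Helper722.FX

open Pool.Agent.Helper605.FT Pool.Agent.Helper732.FT2



theorem Ok.suffix_aux : ∀ {L : List (Finset ℕ)} {a : Finset ℕ}, Ok (a :: L) → Ok L
  | [], _, _ => trivial
  | _ :: _, _, h => h.2.2

theorem Ok.of_append {L2 : List (Finset ℕ)} : ∀ {L1 : List (Finset ℕ)}, Ok (L1 ++ L2) → Ok L2
  | [], h => h
  | _ :: L1, h => Ok.of_append (L1 := L1) (Ok.suffix_aux h)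

theorem sX_mem (m : ℕ) (hm : 12 ≤ m) (x : ℕ) (hx : x ∈ sX m) : 1 ≤ x ∧ x ≤ m ∧ x ≠ m - 1 := by
  unfold sX at hx
  simp only [List.mem_cons, List.mem_range'_1] at hx
  omega

theorem lowP (m : ℕ) (hm : 12 ≤ m) (s : List ℕ) (hs : s.Perm (sX m)) (X : ℕ → List (Finset ℕ))
    (hX : PVf s (eX m) X) (R : List (Finset ℕ)) (hR : R <:+ X 2) (hR0 : R ≠ []) (hr : RestP m) :
    LowP m R (R ++ rest m) := by
  have hsub : ∀ a ∈ R, a ∈ X 2 := fun a ha => hR.subset ha
  have hmemR : ∀ a ∈ R, ∀ x ∈ a, 1 ≤ x ∧ x ≤ m ∧ x ≠ m - 1 := by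
    intro a ha x hx
    have h1 := hX.sub 2 a (hsub a ha) hx
    rw [List.mem_toFinset] at h1
    exact sX_mem m hm x (hs.mem_iff.1 h1)
  have hslen : s.length = m - 1 := by
    rw [hs.length_eq]
    unfold sX
    simp only [List.length_cons, List.length_range']
    omega
  have hlast : R.getLast? = some {m - 2, m} := by
    obtain ⟨P, hP⟩ := hR
    have h2 := hX.last 2 (by omega)
    rw [← hP, List.getLast?_append_of_ne_nil _ hR0] at h2
    rw [h2]
    congr 1
    unfold eX
    simp
  refine ⟨?_, ?_, ?_, ?_, ?_, ?_, ?_, ?_⟩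
  · apply Ok.append_strong
    · obtain ⟨P, hP⟩ := hR
      have h2 := hX.ok 2
      rw [← hP] at h2
      exact Ok.of_append h2
    · exact hr.ok
    · intro a ha b hb
      rw [hlast] at ha
      rw [hr.head] at hb
      have ha' : {m - 2, m} = a := by simpa using ha
      have hb' : {m - 2, m, m + 1} = b := by simpa using hb
      left
      refine ⟨m + 1, ?_, ?_⟩
      · rw [← ha']
        simp only [Finset.mem_insert, Finset.mem_singleton]
        omega
      · rw [← ha', ← hb']
        ext x
        simp only [Finset.mem_insert, Finset.mem_singleton]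
        tauto
    · intro x hx y hy hyx
      rcases hr.mem y hy with h | h
      · exact (hmemR x hx _ (hyx h)).2.2 rfl
      · have := (hmemR x hx _ (hyx h)).2.1
        omega
  · rw [List.length_append, hr.len]
  · rw [List.head?_append_of_ne_nil _ hR0]
  · have hne : rest m ≠ [] := by
      intro h
      have := hr.last
      rw [h] at this
      simp at this
    rw [List.getLast?_append_of_ne_nil _ hne, hr.last]
  · intro a ha
    rcases List.mem_append.1 ha with h | h
    · exact hX.card 2 a (hsub a h)
    · exact hr.card a h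
  · intro a ha
    rcases List.mem_append.1 ha with h | h
    · intro x hx
      have := hmemR a h x hx
      rw [Finset.mem_Icc]
      omega
    · exact hr.sub a h
  · intro a ha hc
    rcases List.mem_append.1 ha with h | h
    · exact Or.inl h
    · exact Or.inr (hr.mem3 a h hc)
  · intro a ha hc
    rcases List.mem_append.1 ha with h | h
    · exact Or.inl h
    · exact Or.inr (hr.mem2 a h hc)

end Pool.Agent.Helper722.FX
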