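import Mathlib
import Pool.Agent.Helper605.FT.A
import Pool.Agent.Helper732.FT2.Base
import Pool.Agent.Helper722.FX.Defs

set_option autoImplicit false

namespace Pool.Agent.Helper722.FX

open Pool.Agent.Helper605.FT Pool.Agent.Helper732.FT2



theorem sub_of_ins_sub_w {x : ℕ} {a b : Finset ℕ} (hb : x ∉ b)
    (h : insert x b ⊆ insert x a) : b ⊆ a := by
  intro y hy
  have := h (Finset.mem_insert_of_mem hy)
  rcases Finset.mem_insert.1 this with rfl | h'
  · exact absurd hy hb
  · exact h'

theorem mem_sX_w (m : ℕ) (hm : 12 ≤ m) (y : ℕ) : y ∈ sX m ↔ (1 ≤ y ∧ y ≤ m ∧ y ≠ m - 1) := by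
  unfold sX
  simp only [List.mem_cons, List.mem_range'_1]
  omega

theorem mem_sY_w (m : ℕ) (hm : 12 ≤ m) (y : ℕ) : y ∈ sY m ↔ (1 ≤ y ∧ y ≤ m ∧ y ≠ m - 1) := by
  unfold sY
  simp only [List.mem_cons, List.mem_append, List.mem_range'_1, List.not_mem_nil, or_false]
  constructor
  · intro h
    omega
  · rintro ⟨h1, h2, h3⟩
    omega

theorem pg_props (m : ℕ) (hm : 12 ≤ m) (s : List ℕ) (hs : s.Perm (sX m)) (X Y : ℕ → List (Finset ℕ))
    (hX : PVf s (eX m) X) (hY : PVf (sY m) (eY m) Y) : PG m s (pg m X Y) := by
  have hmem : ∀ y, y ∈ s ↔ (1 ≤ y ∧ y ≤ m ∧ y ≠ m - 1) := fun y => by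
    rw [hs.mem_iff, mem_sX_w m hm]
  have hlen : s.length = m - 1 := by
    rw [hs.length_eq]
    simp only [sX, List.length_cons, List.length_range']
    omega
  have hlenY : (sY m).length = m - 1 := by
    simp only [sY, List.length_cons, List.length_append, List.length_range', List.length_nil]
    omega
  have hxA : ∀ k, ∀ a ∈ X k, m - 1 ∉ a := fun k a ha hxa => by
    have h := hX.sub k a ha hxa
    rw [List.mem_toFinset, hmem] at h
    exact h.2.2 rfl
  have hxB : ∀ k, ∀ a ∈ Y k, m - 1 ∉ a := fun k a ha hxa => by
    have h := hY.sub k a ha hxa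
    rw [List.mem_toFinset, mem_sY_w m hm] at h
    exact h.2.2 rfl
  have hXnil : ∀ k, m - 1 ≤ k → X k = [] := by
    intro k hk
    rw [← List.length_eq_zero_iff, hX.len, Nat.choose_eq_zero_of_lt (by omega)]
  have hjun : ∀ k, ((eX m).take (k + 3)).toFinset = ((sY m).take (k + 3)).toFinset := by
    intro k
    unfold eX sY
    rw [List.take_succ_cons, List.take_succ_cons, List.take_succ_cons, List.take_succ_cons,
      List.take_succ_cons, List.take_succ_cons]
    ext y
    simp only [List.mem_toFinset, List.mem_cons]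
    tauto
  have hcardm : ∀ k, 3 ≤ k → ∀ a ∈ pg m X Y k, a ∈ X k ∨ ∃ b ∈ Y (k - 1), insert (m - 1) b = a := by
    intro k _ a ha
    unfold pg at ha
    rw [List.mem_append, List.mem_map] at ha
    exact ha
  constructor
  · intro k hk
    obtain ⟨j, rfl⟩ : ∃ j, k = j + 1 := ⟨k - 1, by omega⟩
    unfold pg
    rw [List.length_append, List.length_map, hX.len, hY.len, hlen, hlenY, Nat.add_sub_cancel]
    have e : m - 1 = (m - 1 - 1) + 1 := by omega
    conv_rhs => rw [e]
    rw [Nat.choose_succ_succ]
    ring
  · intro k hk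
    unfold pg
    refine (hX.ok k).append_strong ((hY.ok (k - 1)).ins (hxB (k - 1))) ?_ ?_
    · intro a ha b hb
      by_cases hk2 : k < s.length
      · rw [hX.last _ hk2] at ha
        rw [List.head?_map, hY.head (k - 1) (by omega)] at hb
        simp only [Option.mem_def, Option.some.injEq, Option.map_some] at ha hb
        have e : k - 1 + 1 = (k - 3) + 3 := by omega
        have e' : k = (k - 3) + 3 := by omega
        rw [e, ← hjun, ← e'] at hb
        subst ha hb
        refine Or.inl ⟨m - 1, ?_, rfl⟩
        intro hxx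
        rw [List.mem_toFinset] at hxx
        have h1 := (hX.perm.mem_iff).1 (List.mem_of_mem_take hxx)
        rw [hmem] at h1
        exact h1.2.2 rfl
      · rw [hXnil k (by omega)] at ha
        simp at ha
    · intro a ha b hb hba
      rw [List.mem_map] at hb
      obtain ⟨c, hc, rfl⟩ := hb
      exact hxA _ a ha (hba (Finset.mem_insert_self _ _))
  · intro k hk a ha
    rcases hcardm k hk a ha with ha | ⟨b, hb, rfl⟩
    · exact hX.card _ a ha
    · rw [Finset.card_insert_of_notMem (hxB _ b hb)]
      rcases hY.card _ b hb with h | h <;> omega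
  · intro k hk a ha
    rcases hcardm k hk a ha with ha | ⟨b, hb, rfl⟩
    · intro y hy
      have h1 := hX.sub _ a ha hy
      rw [List.mem_toFinset, hmem] at h1
      exact Finset.mem_Icc.2 ⟨h1.1, h1.2.1⟩
    · intro y hy
      rcases Finset.mem_insert.1 hy with rfl | hy
      · exact Finset.mem_Icc.2 ⟨by omega, by omega⟩
      · have h1 := hY.sub _ b hb hy
        rw [List.mem_toFinset, mem_sY_w m hm] at h1
        exact Finset.mem_Icc.2 ⟨h1.1, h1.2.1⟩
  · intro k hk hkm
    unfold pg
    by_cases hk2 : k < s.length
    · rw [List.take_append_of_le_length (by omega), List.head?_append, hX.head _ hk2]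
      rfl
    · rw [hXnil k (by omega), List.nil_append, List.head?_map, hY.head (k - 1) (by omega)]
      simp only [Option.map_some, Option.some.injEq]
      rw [List.take_of_length_le (by omega), List.take_of_length_le (by
        rw [List.length_append, List.length_singleton]
        omega)]
      ext y
      rw [Finset.mem_insert, List.mem_toFinset, List.mem_toFinset, List.mem_append,
        List.mem_singleton, hmem, mem_sY_w m hm]
      tauto
  · intro k hk hkm
    unfold pg
    rw [List.getLast?_append, List.getLast?_map, hY.last (k - 1) (by omega)]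
    obtain ⟨j, rfl⟩ : ∃ j, k = j + 1 := ⟨k - 1, by omega⟩
    rw [Nat.add_sub_cancel, List.take_succ_cons, List.toFinset_cons]
    simp
  · intro k l hk hkl a ha b hb hba
    rcases hcardm k hk a ha with ha | ⟨d, hd, rfl⟩
    · rcases hcardm l (by omega) b hb with hb | ⟨c, hc, rfl⟩
      · exact hX.cross _ _ hkl a ha b hb hba
      · exact hxA _ a ha (hba (Finset.mem_insert_self _ _))
    · rcases hcardm l (by omega) b hb with hb | ⟨c, hc, rfl⟩
      · have hbd : b ⊆ d := by
          intro y hy
          rcases Finset.mem_insert.1 (hba hy) with rfl | h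
          · exact absurd hy (hxA _ b hb)
          · exact h
        have h1 := Finset.card_le_card hbd
        have h2 := hX.card _ b hb
        have h3 := hY.card _ d hd
        omega
      · exact hY.cross (k - 1) (l - 1) (by omega) d hd c hc (sub_of_ins_sub_w (hxB _ c hc) hba)

end Pool.Agent.Helper722.FX
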