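import Mathlib
import Pool.Agent.Helper605.FT.A
import Pool.Agent.Helper732.FT2.Base
import Pool.Agent.Helper722.FX.Defs

set_option autoImplicit false

namespace Pool.Agent.Helper722.FX

open Pool.Agent.Helper605.FT Pool.Agent.Helper732.FT2


theorem rp_walk_cons (a b : ℕ) (l : List ℕ) :
    walk (a :: b :: l) = {a, b} :: {b} :: walk (b :: l) := by
  rw [walk]

theorem rp_walk_single (a : ℕ) : walk [a] = [] := by
  simp [walk]

theorem rp_walk_nil : walk [] = [] := by
  simp [walk]

theorem rp_walk_len (w : List ℕ) : (walk w).length = 2 * (w.length - 1) := by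
  induction w with
  | nil => simp [rp_walk_nil]
  | cons a l ih =>
    cases l with
    | nil => simp [rp_walk_single]
    | cons b l =>
      rw [rp_walk_cons, List.length_cons, List.length_cons, ih]
      simp only [List.length_cons]
      omega

theorem rp_mem_walk (w : List ℕ) : ∀ d ∈ walk w,
    (∃ u v, [u, v] <:+: w ∧ d = {u, v}) ∨ (∃ v ∈ w.tail, d = {v}) := by
  induction w with
  | nil => simp [rp_walk_nil]
  | cons a l ih =>
    cases l with
    | nil => simp [rp_walk_single]
    | cons b l =>
      intro d hd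
      rw [rp_walk_cons, List.mem_cons, List.mem_cons] at hd
      rcases hd with rfl | rfl | hd
      · exact Or.inl ⟨a, b, ⟨[], l, by simp⟩, rfl⟩
      · exact Or.inr ⟨b, by simp, rfl⟩
      · rcases ih d hd with ⟨u, v, ⟨s, t, h⟩, h2⟩ | ⟨v, hv, h2⟩
        · refine Or.inl ⟨u, v, ⟨a :: s, t, ?_⟩, h2⟩
          rw [List.cons_append, List.cons_append, h]
        · refine Or.inr ⟨v, ?_, h2⟩
          simp only [List.tail_cons] at hv ⊢
          exact List.mem_cons_of_mem _ hv

theorem rp_mem_walk_dropLast (w : List ℕ) : ∀ d ∈ (walk w).dropLast,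
    (∃ u v, [u, v] <:+: w ∧ d = {u, v}) ∨ (∃ v ∈ w.tail.dropLast, d = {v}) := by
  induction w with
  | nil => simp [rp_walk_nil]
  | cons a l ih =>
    cases l with
    | nil => simp [rp_walk_single]
    | cons b l =>
      cases l with
      | nil =>
        intro d hd
        rw [rp_walk_cons, rp_walk_single] at hd
        simp only [List.dropLast, List.mem_singleton] at hd
        exact Or.inl ⟨a, b, ⟨[], [], by simp⟩, hd⟩
      | cons c l =>
        intro d hd
        have hne : walk (b :: c :: l) ≠ [] := by
          rw [rp_walk_cons]; simp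
        rw [rp_walk_cons, List.dropLast_cons_of_ne_nil (by simp),
          List.dropLast_cons_of_ne_nil hne, List.mem_cons, List.mem_cons] at hd
        rcases hd with rfl | rfl | hd
        · exact Or.inl ⟨a, b, ⟨[], c :: l, by simp⟩, rfl⟩
        · refine Or.inr ⟨b, ?_, rfl⟩
          rw [List.tail_cons, List.dropLast_cons_of_ne_nil (by simp)]
          simp
        · rcases ih d hd with ⟨u, v, ⟨s, t, h⟩, h2⟩ | ⟨v, hv, h2⟩
          · refine Or.inl ⟨u, v, ⟨a :: s, t, ?_⟩, h2⟩
            rw [List.cons_append, List.cons_append, h]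
          · refine Or.inr ⟨v, ?_, h2⟩
            rw [List.tail_cons] at hv ⊢
            rw [List.dropLast_cons_of_ne_nil (by simp)]
            exact List.mem_cons_of_mem _ hv

theorem rp_infix {w : List ℕ} (hw : w.Nodup) {u v : ℕ} (h : [u, v] <:+: w) :
    u ≠ v ∧ u ∈ w ∧ v ∈ w.tail := by
  obtain ⟨s, t, rfl⟩ := h
  refine ⟨?_, by simp, ?_⟩
  · rw [List.append_assoc, List.nodup_append] at hw
    have h2 := hw.2.1
    simp at h2
    tauto
  · cases s with
    | nil => simp
    | cons x s => simp

theorem rp_ok_tail {a : Finset ℕ} {L : List (Finset ℕ)} (h : Ok (a :: L)) : Ok L := by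
  cases L with
  | nil => simp [Ok]
  | cons b L =>
    simp only [Ok] at h
    exact h.2.2

theorem rp_ok_prefix (L1 L2 : List (Finset ℕ)) (h : Ok (L1 ++ L2)) : Ok L1 := by
  induction L1 with
  | nil => simp [Ok]
  | cons a L ih =>
    cases L with
    | nil => simp [Ok]
    | cons b L =>
      simp only [List.cons_append, Ok] at h
      simp only [Ok]
      refine ⟨h.1, fun c hc => h.2.1 c (List.mem_append_left _ hc), ?_⟩
      exact ih h.2.2

theorem rp_ok_snoc (L : List (Finset ℕ)) (a : Finset ℕ) (h : Ok L)
    (h1 : ∀ x ∈ L.getLast?, Adj x a) (h2 : ∀ x ∈ L.dropLast, ¬ a ⊆ x) : Ok (L ++ [a]) := by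
  induction L with
  | nil => simp [Ok]
  | cons b L ih =>
    cases L with
    | nil =>
      simp only [List.cons_append, List.nil_append, Ok]
      refine ⟨h1 b (by simp), by simp, trivial⟩
    | cons c L =>
      have h' := h
      simp only [Ok] at h'
      simp only [List.cons_append, Ok]
      refine ⟨h'.1, ?_, ?_⟩
      · intro d hd
        rw [List.mem_append, List.mem_singleton] at hd
        rcases hd with hd | rfl
        · exact h'.2.1 d hd
        · apply h2
          rw [List.dropLast_cons_of_ne_nil (by simp)]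
          simp
      · apply ih h'.2.2
        · intro x hx
          apply h1
          rw [List.getLast?_cons_cons]
          exact hx
        · intro x hx
          apply h2
          rw [List.dropLast_cons_of_ne_nil (by simp)]
          exact List.mem_cons_of_mem _ hx

theorem rp_ok_last (L : List (Finset ℕ)) (x y : Finset ℕ) (h : Ok (L ++ [x, y])) :
    ∀ d ∈ L, ¬ y ⊆ d := by
  induction L with
  | nil => simp
  | cons a L ih =>
    intro d hd
    rw [List.mem_cons] at hd
    rcases hd with rfl | hd
    · cases L with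
      | nil =>
        simp only [List.cons_append, List.nil_append, Ok] at h
        exact h.2.1 y (by simp)
      | cons b L =>
        simp only [List.cons_append, Ok] at h
        exact h.2.1 y (by simp)
    · exact ih (rp_ok_tail h) d hd

theorem rp_mem_tail (w : List ℕ) : ∀ d ∈ walk w, ∃ v ∈ w.tail, v ∈ d := by
  intro d hd
  rcases rp_mem_walk w d hd with ⟨u, v, ⟨s, t, h⟩, rfl⟩ | ⟨v, hv, rfl⟩
  · refine ⟨v, ?_, by simp⟩
    rw [← h]
    cases s with
    | nil => simp
    | cons x s => simp
  · exact ⟨v, hv, by simp⟩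

theorem rp_ok_walk (w : List ℕ) (hw : w.Nodup) : Ok (walk w) := by
  induction w with
  | nil => simp [rp_walk_nil, Ok]
  | cons a l ih =>
    cases l with
    | nil => simp [rp_walk_single, Ok]
    | cons b l =>
      have hw' := List.nodup_cons.mp hw
      have hab : a ≠ b := by
        intro h
        exact hw'.1 (by rw [h]; simp)
      have hbl := List.nodup_cons.mp hw'.2
      rw [rp_walk_cons]
      simp only [Ok]
      refine ⟨Or.inr ⟨a, by simp [hab], rfl⟩, ?_, ?_⟩
      · intro c hc hsub
        obtain ⟨v, hv, hvc⟩ := rp_mem_tail _ c hc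
        rw [List.tail_cons] at hv
        have := hsub hvc
        simp only [Finset.mem_insert, Finset.mem_singleton] at this
        rcases this with rfl | rfl
        · exact hw'.1 (List.mem_cons_of_mem _ hv)
        · exact hbl.1 hv
      · cases l with
        | nil => simp [rp_walk_single, Ok]
        | cons c l =>
          have hbc : b ≠ c := by
            intro h
            exact hbl.1 (by rw [h]; simp)
          have h3 := ih hw'.2
          rw [rp_walk_cons] at h3 ⊢
          rw [Ok]
          refine ⟨Or.inl ⟨c, by simp [hbc.symm], by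
            ext z; simp only [Finset.mem_insert, Finset.mem_singleton]; tauto⟩, ?_, h3⟩
          intro d hd hsub
          rw [List.mem_cons] at hd
          rcases hd with rfl | hd
          · have : c ∈ ({b} : Finset ℕ) := hsub (by simp)
            simp only [Finset.mem_singleton] at this
            exact hbc this.symm
          · obtain ⟨v, hv, hvd⟩ := rp_mem_tail _ d hd
            rw [List.tail_cons] at hv
            have := hsub hvd
            simp only [Finset.mem_singleton] at this
            subst this
            exact hbl.1 (List.mem_cons_of_mem _ hv)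

theorem rp_walk_end (w : List ℕ) (u v : ℕ) :
    ∃ L, walk (w ++ [u, v]) = L ++ [{u, v}, {v}] := by
  induction w with
  | nil => exact ⟨[], by simp [rp_walk_cons, rp_walk_single]⟩
  | cons a w ih =>
    obtain ⟨L, hL⟩ := ih
    cases w with
    | nil =>
      refine ⟨[{a, u}, {u}], ?_⟩
      simp [rp_walk_cons, rp_walk_single]
    | cons b w =>
      refine ⟨{a, b} :: {b} :: L, ?_⟩
      simp only [List.cons_append] at hL ⊢
      rw [rp_walk_cons, hL]

theorem rp_lw_nodup (m : ℕ) (hm : 12 ≤ m) : (lw m).Nodup := by
  unfold lw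
  simp only [List.nodup_cons, List.nodup_append, List.mem_cons, List.mem_append,
    List.mem_reverse, List.mem_range'_1, List.nodup_reverse, List.not_mem_nil, List.nodup_nil,
    or_false, not_or, not_false_eq_true, and_true]
  refine ⟨by omega, by omega, List.nodup_range' _ (by norm_num), by omega, ?_⟩
  intro a ha b hb
  omega

theorem rp_sY_nodup (m : ℕ) (hm : 12 ≤ m) : (sY m).Nodup := by
  unfold sY
  simp only [List.nodup_cons, List.nodup_append, List.mem_cons, List.mem_append,
    List.mem_range'_1, List.not_mem_nil, List.nodup_nil,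
    or_false, not_or, not_false_eq_true, and_true]
  refine ⟨by omega, by omega, by omega, List.nodup_range' _ (by norm_num), by omega, ?_⟩
  intro a ha b hb
  omega

theorem rp_mem_lw (m : ℕ) (hm : 12 ≤ m) (v : ℕ) : v ∈ lw m → 4 ≤ v ∧ v ≤ m := by
  unfold lw
  simp only [List.mem_cons, List.mem_append, List.mem_reverse, List.mem_range'_1,
    List.not_mem_nil, or_false]
  omega

theorem rp_mem_sY (m : ℕ) (hm : 12 ≤ m) (v : ℕ) : v ∈ sY m → 1 ≤ v ∧ v ≤ m ∧ v ≠ m - 1 := by
  unfold sY
  simp only [List.mem_cons, List.mem_append, List.mem_range'_1,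
    List.not_mem_nil, or_false]
  omega

/-- block 5 without `m+1` -/
def rpB (m : ℕ) : List (Finset ℕ) := [{m - 1, 1}, {1}, {1, 2}, {2}, {2, 3}, {3}, {3, 1}]

theorem rp_B (m : ℕ) : WW (m + 1) [m - 1, 1, 2, 3, 1] = (rpB m).map (insert (m + 1)) := by
  simp [WW, walk, rpB]

theorem rp_rest_eq (m : ℕ) : ∃ L L', walk (lw m) = L ++ [{4, m - 1}, {m - 1}] ∧
    walk (sY m) = L' ++ [{2, 1}, {1}] ∧
    rest m = (((L ++ [{4, m - 1}]).map (insert (m + 1))) ++ [{m - 1, 4}]) ++
      ((walk (sY m)).map (insert (m - 1)) ++ (rpB m).map (insert (m + 1))) := by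
  have h1 : lw m = ((m - 2) :: m :: ((List.range' 7 (m - 9)).reverse ++ [5, 6])) ++ [4, m - 1] := by
    simp [lw]
  have h2 : sY m = (4 :: (m - 2) :: m :: (List.range' 5 (m - 7) ++ [3])) ++ [2, 1] := by
    simp [sY]
  obtain ⟨L, hL⟩ := rp_walk_end ((m - 2) :: m :: ((List.range' 7 (m - 9)).reverse ++ [5, 6])) 4 (m - 1)
  obtain ⟨L', hL'⟩ := rp_walk_end (4 :: (m - 2) :: m :: (List.range' 5 (m - 7) ++ [3])) 2 1
  rw [← h1] at hL
  rw [← h2] at hL'
  refine ⟨L, L', hL, hL', ?_⟩
  have e1 : WW (m + 1) (lw m) = (L ++ [{4, m - 1}]).map (insert (m + 1)) := by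
    unfold WW
    rw [hL]
    congr 1
    have : L ++ [({4, m - 1} : Finset ℕ), {m - 1}] = (L ++ [{4, m - 1}]) ++ [{m - 1}] := by simp
    rw [this, List.dropLast_concat]
  have e2 : WW (m - 1) (sY m) = (L' ++ [{2, 1}]).map (insert (m - 1)) := by
    unfold WW
    rw [hL']
    congr 1
    have : L' ++ [({2, 1} : Finset ℕ), {1}] = (L' ++ [{2, 1}]) ++ [{1}] := by simp
    rw [this, List.dropLast_concat]
  unfold rest
  rw [e1, e2, rp_B, hL']
  simp

theorem rp_okB (m : ℕ) (hm : 12 ≤ m) : Ok (rpB m) := by
  have h1 : m - 1 ≠ 1 := by omega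
  have h2 : m - 1 ≠ 2 := by omega
  have h3 : m - 1 ≠ 3 := by omega
  unfold rpB
  simp only [Ok]
  refine ⟨Or.inr ⟨m - 1, by simp [h1], rfl⟩, ?_, Or.inl ⟨2, by simp, by decide⟩, ?_,
    Or.inr ⟨1, by decide, by decide⟩, ?_, Or.inl ⟨3, by simp, by decide⟩, ?_,
    Or.inr ⟨2, by decide, by decide⟩, ?_, Or.inl ⟨1, by decide, by decide⟩, ?_, trivial⟩
  · intro c hc
    simp only [List.mem_cons, List.not_mem_nil, or_false] at hc
    rcases hc with rfl | rfl | rfl | rfl | rfl
    · intro h
      have := h (show 2 ∈ ({1, 2} : Finset ℕ) by decide)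
      simp only [Finset.mem_insert, Finset.mem_singleton] at this
      omega
    · intro h
      have := h (show 2 ∈ ({2} : Finset ℕ) by decide)
      simp only [Finset.mem_insert, Finset.mem_singleton] at this
      omega
    · intro h
      have := h (show 2 ∈ ({2, 3} : Finset ℕ) by decide)
      simp only [Finset.mem_insert, Finset.mem_singleton] at this
      omega
    · intro h
      have := h (show 3 ∈ ({3} : Finset ℕ) by decide)
      simp only [Finset.mem_insert, Finset.mem_singleton] at this
      omega
    · intro h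
      have := h (show 3 ∈ ({3, 1} : Finset ℕ) by decide)
      simp only [Finset.mem_insert, Finset.mem_singleton] at this
      omega
  · decide
  · decide
  · decide
  · decide
  · decide

theorem rp_sub_walk {w : List ℕ} {d : Finset ℕ} (hd : d ∈ walk w) : ∀ v ∈ d, v ∈ w := by
  intro z hz
  rcases rp_mem_walk w d hd with ⟨u, v, ⟨s, t, h⟩, rfl⟩ | ⟨v, hv, rfl⟩
  · rw [← h]
    simp only [Finset.mem_insert, Finset.mem_singleton] at hz
    rcases hz with rfl | rfl <;> simp
  · simp only [Finset.mem_singleton] at hz
    subst hz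
    exact List.mem_of_mem_tail hv

theorem rp_card_walk {w : List ℕ} (hw : w.Nodup) {d : Finset ℕ} (hd : d ∈ walk w) :
    d.card = 1 ∨ d.card = 2 := by
  rcases rp_mem_walk w d hd with ⟨u, v, h, rfl⟩ | ⟨v, hv, rfl⟩
  · right
    exact Finset.card_pair (rp_infix hw h).1
  · left
    simp

theorem rp_infix_HU (m : ℕ) {u v : ℕ} (h : [u, v] <:+: lw m) : HU m {u, v} := by
  right
  refine ⟨u, v, ?_, rfl⟩
  have : (m - 2) :: m :: (sX (m - 1)).reverse = lw m ++ [1, 2, 3] := by
    have h9 : m - 1 - 8 = m - 9 := by omega
    simp [sX, lw, h9]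
  rw [this]
  obtain ⟨s, t, h⟩ := h
  exact ⟨s, t ++ [1, 2, 3], by rw [← h]; simp⟩

theorem rp_infix_HU2 (m : ℕ) {u v : ℕ} (h : [u, v] <:+: [m - 1, 1, 2, 3]) : HU m {u, v} := by
  right
  refine ⟨u, v, ?_, rfl⟩
  have : (m - 2) :: m :: (sX (m - 1)).reverse =
      ((m - 2) :: m :: ((List.range' 7 (m - 9)).reverse ++ [5, 6, 4])) ++ [m - 1, 1, 2, 3] := by
    have h9 : m - 1 - 8 = m - 9 := by omega
    simp [sX, h9]
  rw [this]
  obtain ⟨s, t, h⟩ := h
  exact ⟨((m - 2) :: m :: ((List.range' 7 (m - 9)).reverse ++ [5, 6, 4])) ++ s, t, by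
    rw [← h]; simp⟩

theorem restP (m : ℕ) (hm : 12 ≤ m) : RestP m := by
  obtain ⟨L, L', hL, hL', hrest⟩ := rp_rest_eq m
  have hlw := rp_lw_nodup m hm
  have hsY := rp_sY_nodup m hm
  have hokL : Ok (walk (lw m)) := rp_ok_walk _ hlw
  have hokY : Ok (walk (sY m)) := rp_ok_walk _ hsY
  have hLmem : ∀ d ∈ L ++ [({4, m - 1} : Finset ℕ)], d ∈ walk (lw m) := by
    intro d hd
    rw [hL]
    simp only [List.mem_append, List.mem_cons, List.not_mem_nil, or_false] at hd ⊢
    tauto
  have hLdrop : ∀ d ∈ L ++ [({4, m - 1} : Finset ℕ)], d ∈ (walk (lw m)).dropLast := by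
    intro d hd
    have : walk (lw m) = (L ++ [{4, m - 1}]) ++ [{m - 1}] := by rw [hL]; simp
    rw [this, List.dropLast_concat]
    exact hd
  have hLno : ∀ d ∈ L, m - 1 ∉ d := by
    have h := rp_ok_last L {4, m - 1} {m - 1} (hL ▸ hokL)
    intro d hd hc
    exact h d hd (Finset.singleton_subset_iff.mpr hc)
  have hlwsub : ∀ d ∈ walk (lw m), ∀ v ∈ d, 4 ≤ v ∧ v ≤ m :=
    fun d hd v hv => rp_mem_lw m hm v (rp_sub_walk hd v hv)
  have hsYsub : ∀ d ∈ walk (sY m), ∀ v ∈ d, 1 ≤ v ∧ v ≤ m ∧ v ≠ m - 1 :=
    fun d hd v hv => rp_mem_sY m hm v (rp_sub_walk hd v hv)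
  have hsYtail : ∀ d ∈ walk (sY m), ∃ v ∈ d, v ≠ 4 ∧ v ≤ m ∧ v ≠ m - 1 := by
    intro d hd
    obtain ⟨v, hv, hvd⟩ := rp_mem_tail _ d hd
    refine ⟨v, hvd, ?_, (hsYsub d hd v hvd).2.1, (hsYsub d hd v hvd).2.2⟩
    rintro rfl
    have h4 : sY m = 4 :: (sY m).tail := rfl
    rw [h4] at hsY
    exact (List.nodup_cons.mp hsY).1 hv
  have hBsub : ∀ b ∈ rpB m, (∃ z ∈ b, 1 ≤ z ∧ z ≤ 3) ∧ (∀ v ∈ b, 1 ≤ v ∧ v ≤ m) := by
    intro b hb
    unfold rpB at hb
    simp only [List.mem_cons, List.not_mem_nil, or_false] at hb
    rcases hb with rfl | rfl | rfl | rfl | rfl | rfl | rfl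
    · refine ⟨⟨1, by simp, by norm_num, by norm_num⟩, ?_⟩
      intro v hv
      simp only [Finset.mem_insert, Finset.mem_singleton] at hv
      omega
    · refine ⟨⟨1, by simp, by norm_num, by norm_num⟩, ?_⟩
      intro v hv
      simp only [Finset.mem_singleton] at hv
      omega
    · refine ⟨⟨1, by simp, by norm_num, by norm_num⟩, ?_⟩
      intro v hv
      simp only [Finset.mem_insert, Finset.mem_singleton] at hv
      omega
    · refine ⟨⟨2, by simp, by norm_num, by norm_num⟩, ?_⟩
      intro v hv
      simp only [Finset.mem_singleton] at hv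
      omega
    · refine ⟨⟨2, by simp, by norm_num, by norm_num⟩, ?_⟩
      intro v hv
      simp only [Finset.mem_insert, Finset.mem_singleton] at hv
      omega
    · refine ⟨⟨3, by simp, by norm_num, by norm_num⟩, ?_⟩
      intro v hv
      simp only [Finset.mem_singleton] at hv
      omega
    · refine ⟨⟨3, by simp, by norm_num, by norm_num⟩, ?_⟩
      intro v hv
      simp only [Finset.mem_insert, Finset.mem_singleton] at hv
      omega
  have hmem : ∀ a ∈ rest m, (∃ d ∈ L ++ [({4, m - 1} : Finset ℕ)], a = insert (m + 1) d) ∨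
      a = {m - 1, 4} ∨ (∃ d ∈ walk (sY m), a = insert (m - 1) d) ∨
      (∃ b ∈ rpB m, a = insert (m + 1) b) := by
    intro a ha
    rw [hrest, List.mem_append, List.mem_append, List.mem_append, List.mem_map, List.mem_map,
      List.mem_map, List.mem_singleton] at ha
    rcases ha with (⟨d, hd, rfl⟩ | rfl) | ⟨d, hd, rfl⟩ | ⟨d, hd, rfl⟩
    · exact Or.inl ⟨d, hd, rfl⟩
    · exact Or.inr (Or.inl rfl)
    · exact Or.inr (Or.inr (Or.inl ⟨d, hd, rfl⟩))
    · exact Or.inr (Or.inr (Or.inr ⟨d, hd, rfl⟩))
  have hno1 : ∀ d ∈ L ++ [({4, m - 1} : Finset ℕ)], m + 1 ∉ d := by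
    intro d hd h
    have := (hlwsub d (hLmem d hd) _ h).2
    omega
  have hno2 : ∀ d ∈ walk (sY m), m - 1 ∉ d := by
    intro d hd h
    exact (hsYsub d hd _ h).2.2 rfl
  have hno3 : ∀ d ∈ rpB m, m + 1 ∉ d := by
    intro d hd h
    have := ((hBsub d hd).2 _ h).2
    omega
  have hlen1 : (lw m).length = m - 3 := by
    simp only [lw, List.length_cons, List.length_append, List.length_reverse, List.length_range',
      List.length_nil]
    omega
  have hlen2 : (sY m).length = m - 1 := by
    simp only [sY, List.length_cons, List.length_append, List.length_range', List.length_nil]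
    omega
  have hlenL : L.length + 2 = 2 * (m - 4) := by
    have h := rp_walk_len (lw m)
    rw [hL, hlen1] at h
    simp only [List.length_append, List.length_cons, List.length_nil] at h
    omega
  have ok1 : Ok ((L ++ [({4, m - 1} : Finset ℕ)]).map (insert (m + 1))) := by
    apply Ok.ins hno1
    apply rp_ok_prefix _ [{m - 1}]
    have : walk (lw m) = (L ++ [{4, m - 1}]) ++ [{m - 1}] := by rw [hL]; simp
    rw [← this]
    exact hokL
  have ok2 : Ok (((L ++ [({4, m - 1} : Finset ℕ)]).map (insert (m + 1))) ++ [{m - 1, 4}]) := by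
    apply rp_ok_snoc _ _ ok1
    · intro x hx
      rw [List.map_append, List.map_cons, List.map_nil, List.getLast?_concat, Option.mem_some_iff] at hx
      subst hx
      refine Or.inr ⟨m + 1, ?_, ?_⟩
      · simp only [Finset.mem_insert, Finset.mem_singleton]
        omega
      · ext z
        simp only [Finset.mem_insert, Finset.mem_singleton]
        tauto
    · intro x hx hsub
      rw [List.map_append, List.map_cons, List.map_nil, List.dropLast_concat, List.mem_map] at hx
      obtain ⟨d, hd, rfl⟩ := hx
      have h1 := hsub (show m - 1 ∈ ({m - 1, 4} : Finset ℕ) by simp)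
      rw [Finset.mem_insert] at h1
      rcases h1 with h1 | h1
      · omega
      · exact hLno d hd h1
  have ok3 : Ok ((walk (sY m)).map (insert (m - 1))) := Ok.ins hno2 hokY
  have ok4 : Ok ((rpB m).map (insert (m + 1))) := Ok.ins hno3 (rp_okB m hm)
  have ok5 : Ok ((walk (sY m)).map (insert (m - 1)) ++ (rpB m).map (insert (m + 1))) := by
    apply Ok.append_strong ok3 ok4
    · intro a ha b hb
      have h1 : walk (sY m) = (L' ++ [{2, 1}]) ++ [{1}] := by rw [hL']; simp
      rw [h1, List.map_append, List.map_cons, List.map_nil, List.getLast?_concat,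
        Option.mem_some_iff] at ha
      simp only [rpB, List.map_cons, List.head?_cons, Option.mem_some_iff] at hb
      subst ha hb
      refine Or.inl ⟨m + 1, ?_, rfl⟩
      simp only [Finset.mem_insert, Finset.mem_singleton]
      omega
    · intro x hx y hy hsub
      rw [List.mem_map] at hx hy
      obtain ⟨d, hd, rfl⟩ := hx
      obtain ⟨b, hb, rfl⟩ := hy
      have h1 := hsub (Finset.mem_insert_self _ _)
      rw [Finset.mem_insert] at h1
      rcases h1 with h1 | h1
      · omega
      · have := (hsYsub d hd _ h1).2.1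
        omega
  have hsYw : ∃ T, walk (sY m) = ({4, m - 2} : Finset ℕ) :: T := ⟨_, rfl⟩
  have hok : Ok (rest m) := by
    rw [hrest]
    apply Ok.append_strong ok2 ok5
    · intro a ha b hb
      rw [List.getLast?_concat, Option.mem_some_iff] at ha
      obtain ⟨T, hT⟩ := hsYw
      rw [hT] at hb
      simp only [List.map_cons, List.cons_append, List.head?_cons, Option.mem_some_iff] at hb
      subst ha hb
      refine Or.inl ⟨m - 2, ?_, ?_⟩
      · simp only [Finset.mem_insert, Finset.mem_singleton]
        omega
      · ext z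
        simp only [Finset.mem_insert, Finset.mem_singleton]
        tauto
    · intro x hx y hy hsub
      rw [List.mem_append, List.mem_map, List.mem_singleton] at hx
      rw [List.mem_append, List.mem_map, List.mem_map] at hy
      rcases hx with ⟨d, hd, rfl⟩ | rfl
      · rcases hy with ⟨e, he, rfl⟩ | ⟨b, hb, rfl⟩
        · obtain ⟨v, hv, hv1, hv2, hv3⟩ := hsYtail e he
          have h1 := hsub (Finset.mem_insert_self _ _)
          rw [Finset.mem_insert] at h1
          have h2 : m - 1 ∈ d := by
            rcases h1 with h1 | h1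
            · omega
            · exact h1
          rw [List.mem_append, List.mem_singleton] at hd
          rcases hd with hd | rfl
          · exact hLno d hd h2
          · have h3 := hsub (Finset.mem_insert_of_mem hv)
            simp only [Finset.mem_insert, Finset.mem_singleton] at h3
            omega
        · obtain ⟨z, hz, hz1, hz2⟩ := (hBsub b hb).1
          have h1 := hsub (Finset.mem_insert_of_mem hz)
          rw [Finset.mem_insert] at h1
          rcases h1 with h1 | h1
          · omega
          · have := (hlwsub d (hLmem d hd) _ h1).1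
            omega
      · rcases hy with ⟨e, he, rfl⟩ | ⟨b, hb, rfl⟩
        · obtain ⟨v, hv, hv1, hv2, hv3⟩ := hsYtail e he
          have h3 := hsub (Finset.mem_insert_of_mem hv)
          simp only [Finset.mem_insert, Finset.mem_singleton] at h3
          omega
        · have h3 := hsub (Finset.mem_insert_self _ _)
          simp only [Finset.mem_insert, Finset.mem_singleton] at h3
          omega
  have hBcard : ∀ b ∈ rpB m, b.card = 1 ∨ b.card = 2 := by
    intro b hb
    unfold rpB at hb
    simp only [List.mem_cons, List.not_mem_nil, or_false] at hb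
    rcases hb with rfl | rfl | rfl | rfl | rfl | rfl | rfl
    · right; exact Finset.card_pair (by omega)
    · left; rfl
    · right; rfl
    · left; rfl
    · right; rfl
    · left; rfl
    · right; rfl
  refine ⟨hok, ?_, ?_, ?_, ?_, ?_, ?_, ?_, ?_⟩
  · rw [hrest]
    simp only [List.length_append, List.length_map, List.length_cons, List.length_nil,
      rp_walk_len, hlen2, rpB]
    omega
  · have hL0 : ∃ L1, L = ({m - 2, m} : Finset ℕ) :: L1 := by
      cases hLc : L with
      | nil =>
        rw [hLc] at hlenL
        simp only [List.length_nil] at hlenL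
        omega
      | cons x L1 =>
        refine ⟨L1, ?_⟩
        have h1 : walk (lw m) = ({m - 2, m} : Finset ℕ) :: {m} ::
            walk (m :: ((List.range' 7 (m - 9)).reverse ++ [5, 6, 4, m - 1])) := by
          unfold lw
          rw [rp_walk_cons]
        rw [hL, hLc, List.cons_append] at h1
        have h2 := (List.cons.inj h1).1
        rw [h2]
    obtain ⟨L1, hL1⟩ := hL0
    rw [hrest, hL1]
    simp only [List.cons_append, List.map_cons, List.head?_cons]
    congr 1
    ext z
    simp only [Finset.mem_insert, Finset.mem_singleton]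
    tauto
  · rw [hrest]
    have : (rpB m).map (insert (m + 1)) =
        (([{m - 1, 1}, {1}, {1, 2}, {2}, {2, 3}, {3}] : List (Finset ℕ)).map (insert (m + 1))) ++
          [insert (m + 1) {3, 1}] := rfl
    rw [this, ← List.append_assoc, ← List.append_assoc, List.getLast?_concat]
    congr 1
    ext z
    simp only [Finset.mem_insert, Finset.mem_singleton]
    tauto
  · intro a ha
    rcases hmem a ha with ⟨d, hd, rfl⟩ | rfl | ⟨d, hd, rfl⟩ | ⟨b, hb, rfl⟩
    · right; simp
    · left; simp
    · left; simp
    · right; simp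
  · intro a ha
    rcases hmem a ha with ⟨d, hd, rfl⟩ | rfl | ⟨d, hd, rfl⟩ | ⟨b, hb, rfl⟩
    · rw [Finset.card_insert_of_notMem (hno1 d hd)]
      rcases rp_card_walk hlw (hLmem d hd) with h | h <;> omega
    · left; exact Finset.card_pair (by omega)
    · rw [Finset.card_insert_of_notMem (hno2 d hd)]
      rcases rp_card_walk hsY hd with h | h <;> omega
    · rw [Finset.card_insert_of_notMem (hno3 b hb)]
      rcases hBcard b hb with h | h <;> omega
  · intro a ha v hv
    rw [Finset.mem_Icc]
    rcases hmem a ha with ⟨d, hd, rfl⟩ | rfl | ⟨d, hd, rfl⟩ | ⟨b, hb, rfl⟩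
    · rw [Finset.mem_insert] at hv
      rcases hv with rfl | hv
      · omega
      · have := hlwsub d (hLmem d hd) v hv
        omega
    · simp only [Finset.mem_insert, Finset.mem_singleton] at hv
      omega
    · rw [Finset.mem_insert] at hv
      rcases hv with rfl | hv
      · omega
      · have := hsYsub d hd v hv
        omega
    · rw [Finset.mem_insert] at hv
      rcases hv with rfl | hv
      · omega
      · have := (hBsub b hb).2 v hv
        omega
  · intro a ha hc
    rcases hmem a ha with ⟨d, hd, rfl⟩ | rfl | ⟨d, hd, rfl⟩ | ⟨b, hb, rfl⟩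
    · left
      rw [Finset.card_insert_of_notMem (hno1 d hd)] at hc
      refine ⟨d, ?_, by omega, ?_, rfl⟩
      · rcases rp_mem_walk _ d (hLmem d hd) with ⟨u, v, h, rfl⟩ | ⟨v, hv, rfl⟩
        · exact rp_infix_HU m h
        · simp at hc
      · intro v hv
        rw [Finset.mem_Icc]
        have := hlwsub d (hLmem d hd) v hv
        omega
    · exfalso
      rw [Finset.card_pair (by omega)] at hc
      omega
    · right
      rw [Finset.card_insert_of_notMem (hno2 d hd)] at hc
      exact ⟨d, hd, by omega, rfl⟩
    · left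
      rw [Finset.card_insert_of_notMem (hno3 b hb)] at hc
      refine ⟨b, ?_, by omega, ?_, rfl⟩
      · unfold rpB at hb
        simp only [List.mem_cons, List.not_mem_nil, or_false] at hb
        rcases hb with rfl | rfl | rfl | rfl | rfl | rfl | rfl
        · exact rp_infix_HU2 m ⟨[], [2, 3], by simp⟩
        · simp at hc
        · exact rp_infix_HU2 m ⟨[m - 1], [3], by simp⟩
        · simp at hc
        · exact rp_infix_HU2 m ⟨[m - 1, 1], [], by simp⟩
        · simp at hc
        · left
          decide
      · intro v hv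
        rw [Finset.mem_Icc]
        exact (hBsub b hb).2 v hv
  · intro a ha hc
    rcases hmem a ha with ⟨d, hd, rfl⟩ | rfl | ⟨d, hd, rfl⟩ | ⟨b, hb, rfl⟩
    · right
      rw [Finset.card_insert_of_notMem (hno1 d hd)] at hc
      rcases rp_mem_walk_dropLast _ d (hLdrop d hd) with ⟨u, v, h, rfl⟩ | ⟨v, hv, rfl⟩
      · rw [Finset.card_pair (rp_infix hlw h).1] at hc
        omega
      · have h1 : v ≠ m - 2 := by
          rintro rfl
          have h4 : lw m = (m - 2) :: (lw m).tail := rfl
          rw [h4] at hlw
          exact (List.nodup_cons.mp hlw).1 (List.mem_of_mem_dropLast hv)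
        have h2 : v ≠ m - 1 := by
          rintro rfl
          have h4 : (lw m).tail = (m :: ((List.range' 7 (m - 9)).reverse ++ [5, 6, 4])) ++ [m - 1] := by
            simp [lw]
          rw [h4, List.dropLast_concat] at hv
          have h5 : lw m = (m - 2) :: (lw m).tail := rfl
          have h6 := (List.nodup_cons.mp (h5 ▸ hlw)).2
          rw [h4, List.nodup_append] at h6
          exact h6.2.2 _ hv _ (by simp) rfl
        refine ⟨by simp, ?_⟩
        simp only [Finset.mem_insert, Finset.mem_singleton]
        omega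
    · left
      refine ⟨by simp, ?_⟩
      simp only [Finset.mem_insert, Finset.mem_singleton]
      omega
    · left
      refine ⟨by simp, ?_⟩
      rw [Finset.mem_insert, not_or]
      refine ⟨by omega, fun h => ?_⟩
      have := (hsYsub d hd _ h).2.1
      omega
    · right
      rw [Finset.card_insert_of_notMem (hno3 b hb)] at hc
      refine ⟨by simp, ?_⟩
      unfold rpB at hb
      simp only [List.mem_cons, List.not_mem_nil, or_false] at hb
      rcases hb with rfl | rfl | rfl | rfl | rfl | rfl | rfl
      · rw [Finset.card_pair (by omega)] at hc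
        omega
      · simp only [Finset.mem_insert, Finset.mem_singleton]
        omega
      · rw [Finset.card_pair (by omega)] at hc
        omega
      · simp only [Finset.mem_insert, Finset.mem_singleton]
        omega
      · rw [Finset.card_pair (by omega)] at hc
        omega
      · simp only [Finset.mem_insert, Finset.mem_singleton]
        omega
      · rw [Finset.card_pair (by omega)] at hc
        omega

end Pool.Agent.Helper722.FX
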