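import Mathlib
import Pool.Agent.Helper605.FT.A
import Pool.Agent.Helper732.FT2.Base
import Pool.Agent.Helper722.FX.Defs

set_option autoImplicit false

namespace Pool.Agent.Helper722.FX

open Pool.Agent.Helper605.FT Pool.Agent.Helper732.FT2


theorem BFs_memsX {n y : ℕ} (hn : 12 ≤ n) (h : y ∈ (sX n).toFinset) :
    1 ≤ y ∧ y ≤ n ∧ y ≠ n - 1 := by
  simp only [sX, List.mem_toFinset, List.mem_cons, List.mem_range'_1] at h
  omega

theorem BFs_memsY {n y : ℕ} (hn : 12 ≤ n) (h : y ∈ (sY n).toFinset) :
    1 ≤ y ∧ y ≤ n ∧ y ≠ n - 1 := by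
  simp only [sY, List.mem_toFinset, List.mem_cons, List.mem_append, List.mem_range'_1,
    List.not_mem_nil, or_false] at h
  omega

theorem BFs_X2 {n : ℕ} {X : ℕ → List (Finset ℕ)}
    (hX2 : (X 2).take 3 = [{3, 2, 1}, {3, 1}, {3, 1, n}]) :
    ∃ L, X 2 = {3, 2, 1} :: {3, 1} :: {3, 1, n} :: L := by
  refine ⟨(X 2).drop 3, ?_⟩
  have h := List.take_append_drop 3 (X 2)
  rw [hX2] at h
  exact h.symm

theorem BFs_junc {n j : ℕ} (hn : 12 ≤ n) (hj : 4 ≤ j) (hjn : j + 1 ≤ n) :
    (((n - 1) :: eY n).take j).toFinset = ((sP (n - 1)).take j).toFinset := by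
  rcases Nat.lt_or_ge j 7 with h7 | h7
  · have h3 : j = 4 ∨ j = 5 ∨ j = 6 := by omega
    rcases h3 with rfl | rfl | rfl
    · ext y
      simp only [eY, sP, List.take_succ_cons, List.take_zero, List.mem_toFinset, List.mem_cons,
        List.not_mem_nil, or_false]
      tauto
    · ext y
      simp only [eY, sP, List.take_succ_cons, List.take_zero, List.mem_toFinset, List.mem_cons,
        List.not_mem_nil, or_false]
      tauto
    · ext y
      simp only [eY, sP, List.take_succ_cons, List.take_zero, List.mem_toFinset, List.mem_cons,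
        List.not_mem_nil, or_false]
      tauto
  · obtain ⟨i, rfl⟩ : ∃ i, j = i + 7 := ⟨j - 7, by omega⟩
    ext y
    simp only [eY, sP, List.take_succ_cons, List.mem_toFinset, List.mem_cons]
    rw [List.take_append_of_le_length (by simp; omega), show n - 1 - 7 = n - 8 by omega]
    tauto

theorem BFs_last3 {n : ℕ} (hn : 12 ≤ n) :
    (((n - 1) :: eY n).take 3).toFinset = {1, 3, n - 1} := by
  ext y
  simp only [eY, List.take_succ_cons, List.take_zero, List.mem_toFinset, List.mem_cons,
    List.not_mem_nil, or_false, Finset.mem_insert, Finset.mem_singleton]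
  tauto

theorem BFs_sP {n : ℕ} (hn : 12 ≤ n) : sX n ++ [n - 1] = sP n := by
  have h : List.range' 7 (n - 7) = List.range' 7 (n - 8) ++ [n - 1] := by
    rw [show n - 7 = (n - 8) + 1 by omega, List.range'_concat]
    congr 2
    omega
  simp only [sX, sP, List.cons_append, h]

theorem BFs_walk {u v : ℕ} : ∀ l : List ℕ, [u, v] <:+: l → ({u, v} : Finset ℕ) ∈ walk l
  | [], h => by
    have := h.length_le
    simp at this
  | [a], h => by
    have := h.length_le
    simp at this
  | a :: b :: l, h => by
    rw [List.infix_cons_iff] at h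
    rcases h with h | h
    · rw [List.cons_prefix_cons, List.cons_prefix_cons] at h
      obtain ⟨rfl, rfl, _⟩ := h
      show ({u, v} : Finset ℕ) ∈ {u, v} :: {v} :: walk (v :: l)
      exact List.mem_cons_self
    · have h1 := BFs_walk (b :: l) h
      show ({u, v} : Finset ℕ) ∈ {a, b} :: {b} :: walk (b :: l)
      exact List.mem_cons_of_mem _ (List.mem_cons_of_mem _ h1)

theorem BFs_rev_head {n : ℕ} (hn : 12 ≤ n) : ∃ L, (sX n).reverse = (n - 2) :: L := by
  have h : List.range' 7 (n - 8) = List.range' 7 (n - 9) ++ [n - 2] := by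
    rw [show n - 8 = (n - 9) + 1 by omega, List.range'_concat]
    congr 2
    omega
  refine ⟨(3 :: 2 :: 1 :: n :: 4 :: 6 :: 5 :: List.range' 7 (n - 9)).reverse, ?_⟩
  have h2 : sX n = (3 :: 2 :: 1 :: n :: 4 :: 6 :: 5 :: List.range' 7 (n - 9)) ++ [n - 2] := by
    simp only [sX, h, List.cons_append]
  rw [h2, List.reverse_append]
  rfl

/-- consecutive pairs -/
theorem BFs_HU {n : ℕ} (hn : 12 ≤ n) {b : Finset ℕ} (h : HU (n + 1) b) :
    b = {1, 3} ∨ (n - 1 ∈ b ∧ n + 1 ∈ b) ∨ (n + 1 ∈ b ∧ n - 2 ∈ b) ∨
      (b ∈ walk (sX n) ∧ b ⊆ (sX n).toFinset) := by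
  rcases h with h | ⟨u, v, huv, rfl⟩
  · exact Or.inl h
  · right
    rw [show n + 1 - 2 = n - 1 by omega, Nat.add_sub_cancel] at huv
    rw [List.infix_cons_iff] at huv
    rcases huv with huv | huv
    · left
      rw [List.cons_prefix_cons, List.cons_prefix_cons] at huv
      obtain ⟨rfl, rfl, _⟩ := huv
      simp
    · rw [List.infix_cons_iff] at huv
      rcases huv with huv | huv
      · right; left
        obtain ⟨L, hL⟩ := BFs_rev_head hn
        rw [hL, List.cons_prefix_cons, List.cons_prefix_cons] at huv
        obtain ⟨rfl, rfl, _⟩ := huv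
        simp
      · right; right
        have h2 : [v, u] <:+: sX n := by
          rw [← List.reverse_infix]
          exact huv
        refine ⟨?_, ?_⟩
        · have h3 := BFs_walk _ h2
          rw [Finset.pair_comm]
          exact h3
        · intro y hy
          rw [List.mem_toFinset]
          rw [Finset.mem_insert, Finset.mem_singleton] at hy
          apply h2.subset
          rcases hy with rfl | rfl
          · simp
          · simp

theorem BFs_sub_of_ins {x : ℕ} {a b : Finset ℕ} (hb : x ∉ b) (h : b ⊆ insert x a) : b ⊆ a := by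
  intro y hy
  rcases Finset.mem_insert.1 (h hy) with rfl | h1
  · exact absurd hy hb
  · exact h1

theorem BFs_sub_of_ins_ins {x : ℕ} {a b : Finset ℕ} (hb : x ∉ b) (h : insert x b ⊆ insert x a) :
    b ⊆ a :=
  BFs_sub_of_ins hb ((Finset.subset_insert _ _).trans h)

theorem BFs_three (n : ℕ) (X Y c : ℕ → List (Finset ℕ)) :
    nextB n X Y c 3 = (X 2).drop 2 ++ rest n := by
  simp [nextB]

theorem BFs_succ (n : ℕ) (X Y c : ℕ → List (Finset ℕ)) {j : ℕ} (hj : 3 ≤ j) :
    nextB n X Y c (j + 1) = pg n X Y j ++ (c j).map (insert (n + 1)) := by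
  simp only [nextB]
  rw [if_neg (by omega), Nat.add_sub_cancel]

theorem BFs_mem {n : ℕ} {X Y c : ℕ → List (Finset ℕ)} {j : ℕ} (hj : 3 ≤ j) {a : Finset ℕ}
    (ha : a ∈ nextB n X Y c (j + 1)) : a ∈ pg n X Y j ∨ ∃ b ∈ c j, a = insert (n + 1) b := by
  rw [BFs_succ n X Y c hj, List.mem_append, List.mem_map] at ha
  rcases ha with ha | ⟨b, hb, rfl⟩
  · exact Or.inl ha
  · exact Or.inr ⟨b, hb, rfl⟩

theorem BFs_mempg {n : ℕ} {X Y : ℕ → List (Finset ℕ)} {j : ℕ} {a : Finset ℕ}
    (ha : a ∈ pg n X Y j) : a ∈ X j ∨ ∃ b ∈ Y (j - 1), a = insert (n - 1) b := by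
  unfold pg at ha
  rw [List.mem_append, List.mem_map] at ha
  rcases ha with ha | ⟨b, hb, rfl⟩
  · exact Or.inl ha
  · exact Or.inr ⟨b, hb, rfl⟩



theorem BF_step (n : ℕ) (hn : 12 ≤ n) (c : ℕ → List (Finset ℕ)) (hc : BF n c)
    (X Y : ℕ → List (Finset ℕ)) (hX : PVf (sX n) (eX n) X) (hX1 : X 1 = walk (sX n))
    (hX2 : (X 2).take 3 = [{3, 2, 1}, {3, 1}, {3, 1, n}])
    (hY : PVf (sY n) (eY n) Y) (hY1 : Y 1 = walk (sY n))
    (hYT : ∀ j, 5 ≤ j → j ≤ n →
      ({1, 2, 3, n} ∪ Finset.Icc (n - j + 4) (n - 2) : Finset ℕ) ∈ Y (j - 2))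
    (hL : LowP n ((X 2).drop 2) ((X 2).drop 2 ++ rest n)) (hP : PG n (sX n) (pg n X Y)) :
    BF (n + 1) (nextB n X Y c) := by
  have hXs : ∀ k, ∀ a ∈ X k, ∀ y ∈ a, 1 ≤ y ∧ y ≤ n ∧ y ≠ n - 1 := fun k a ha y hy =>
    BFs_memsX hn (hX.sub k a ha hy)
  have hYs : ∀ k, ∀ a ∈ Y k, ∀ y ∈ a, 1 ≤ y ∧ y ≤ n ∧ y ≠ n - 1 := fun k a ha y hy =>
    BFs_memsY hn (hY.sub k a ha hy)
  have hpn : ∀ k, 3 ≤ k → ∀ a ∈ pg n X Y k, n + 1 ∉ a := fun k hk a ha hm => by
    have := Finset.mem_Icc.mp (hP.sub k hk a ha hm)
    omega
  have hcn : ∀ k, 3 ≤ k → k + 1 ≤ n → ∀ a ∈ c k, n + 1 ∉ a := fun k hk hk' a ha hm => by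
    have := Finset.mem_Icc.mp (hc.sub k hk hk' a ha hm)
    omega
  obtain ⟨L, hXL⟩ := BFs_X2 hX2
  have hdrop : (X 2).drop 2 = {3, 1, n} :: L := by
    rw [hXL]
    rfl
  have hfirst : ({3, 2, 1} : Finset ℕ) ∈ X 2 := by
    rw [hXL]
    exact List.mem_cons_self
  have hR : ∀ b ∈ (X 2).drop 2, ¬ b ⊆ {3, 2, 1} := by
    have h1 := hX.ok 2
    rw [hXL] at h1
    rw [hdrop]
    exact h1.2.1
  have hRX : ∀ b ∈ (X 2).drop 2, b ∈ X 2 := fun b hb => List.mem_of_mem_drop hb
  constructor
  · -- len
    intro k hk hk'
    rcases Nat.lt_or_ge 3 k with h4 | h4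
    · obtain ⟨j, rfl⟩ : ∃ j, k = j + 1 := ⟨k - 1, by omega⟩
      rw [BFs_succ n X Y c (by omega), List.length_append, List.length_map,
        hP.len j (by omega)]
      have h1 := hc.len j (by omega) (by omega)
      have h2 : (n + 1 - 1).choose (j + 1 - 1) = (n - 1).choose (j - 1) + (n - 1).choose j := by
        obtain ⟨m, rfl⟩ : ∃ m, n = m + 1 := ⟨n - 1, by omega⟩
        obtain ⟨i, rfl⟩ : ∃ i, j = i + 1 := ⟨j - 1, by omega⟩
        simp only [Nat.add_sub_cancel]
        rw [Nat.choose_succ_succ]
      rw [h2]
      omega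
    · obtain rfl : k = 3 := by omega
      rw [BFs_three, hL.len, List.length_drop, hX.len]
      have h1 : (sX n).length = n - 1 := by
        simp only [sX, List.length_cons, List.length_range']
        omega
      rw [h1]
      obtain ⟨m, rfl⟩ : ∃ m, n = m + 2 := ⟨n - 2, by omega⟩
      have h2 : (m + 2).choose 2 = m.choose 2 + 2 * m + 1 := by
        rw [Nat.choose_succ_succ' (m + 1) 1, Nat.choose_succ_succ' m 1]
        simp only [Nat.choose_one_right]
        ring
      have h3 : 1 ≤ m.choose 2 := Nat.choose_pos (by omega)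
      simp only [show m + 2 - 1 - 1 = m by omega, show m + 2 + 1 - 1 = m + 2 by omega,
        show 3 - 1 = 2 by omega]
      omega
  · -- ok
    intro k hk hk'
    rcases Nat.lt_or_ge 3 k with h4 | h4
    · obtain ⟨j, rfl⟩ : ∃ j, k = j + 1 := ⟨k - 1, by omega⟩
      rw [BFs_succ n X Y c (by omega)]
      refine (hP.ok j (by omega)).append_strong ((hc.ok j (by omega) (by omega)).ins
        (hcn j (by omega) (by omega))) ?_ ?_
      · intro a ha b hb
        have hhead : (c j).head? = some ((((n - 1) :: eY n).take j).toFinset) := by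
          rcases Nat.lt_or_ge 3 j with h5 | h5
          · rw [hc.head j (by omega) (by omega), BFs_junc hn (by omega) (by omega)]
          · obtain rfl : j = 3 := by omega
            rw [hc.head3, BFs_last3 hn]
        have hmem := List.mem_of_head? hhead
        rw [hP.last j (by omega) (by omega)] at ha
        rw [List.head?_map, hhead] at hb
        simp only [Option.mem_def, Option.some.injEq, Option.map_some] at ha hb
        subst ha hb
        exact Or.inl ⟨n + 1, hcn j (by omega) (by omega) _ hmem, rfl⟩
      · intro a ha b hb hba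
        rw [List.mem_map] at hb
        obtain ⟨d, hd, rfl⟩ := hb
        exact hpn _ (by omega) a ha (hba (Finset.mem_insert_self _ _))
    · obtain rfl : k = 3 := by omega
      rw [BFs_three]
      exact hL.ok
  · -- card
    intro k hk hk' a ha
    rcases Nat.lt_or_ge 3 k with h4 | h4
    · obtain ⟨j, rfl⟩ : ∃ j, k = j + 1 := ⟨k - 1, by omega⟩
      rcases BFs_mem (by omega) ha with ha | ⟨b, hb, rfl⟩
      · rcases hP.card j (by omega) a ha with h1 | h1 <;> omega
      · rw [Finset.card_insert_of_notMem (hcn j (by omega) (by omega) b hb)]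
        rcases hc.card j (by omega) (by omega) b hb with h1 | h1 <;> omega
    · obtain rfl : k = 3 := by omega
      rw [BFs_three] at ha
      exact hL.card a ha
  · -- sub
    intro k hk hk' a ha
    rcases Nat.lt_or_ge 3 k with h4 | h4
    · obtain ⟨j, rfl⟩ : ∃ j, k = j + 1 := ⟨k - 1, by omega⟩
      have hI : Finset.Icc 1 n ⊆ Finset.Icc 1 (n + 1) := Finset.Icc_subset_Icc_right (by omega)
      rcases BFs_mem (by omega) ha with ha | ⟨b, hb, rfl⟩
      · exact (hP.sub j (by omega) a ha).trans hI
      · exact Finset.insert_subset (by rw [Finset.mem_Icc]; omega)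
          ((hc.sub j (by omega) (by omega) b hb).trans hI)
    · obtain rfl : k = 3 := by omega
      rw [BFs_three] at ha
      exact hL.sub a ha
  · -- head3
    rw [BFs_three, hL.head, hdrop, List.head?_cons]
    congr 1
    ext y
    simp only [Finset.mem_insert, Finset.mem_singleton, Nat.add_sub_cancel]
    tauto
  · -- head
    intro k hk hk'
    obtain ⟨j, rfl⟩ : ∃ j, k = j + 1 := ⟨k - 1, by omega⟩
    rw [BFs_succ n X Y c (by omega), List.head?_append, hP.head j (by omega) (by omega),
      BFs_sP hn, Nat.add_sub_cancel]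
    rfl
  · -- last
    intro k hk hk'
    rcases Nat.lt_or_ge 3 k with h4 | h4
    · obtain ⟨j, rfl⟩ : ∃ j, k = j + 1 := ⟨k - 1, by omega⟩
      rw [BFs_succ n X Y c (by omega), List.getLast?_append, List.getLast?_map,
        hc.last j (by omega) (by omega)]
      simp only [Option.map_some, Option.some_or, Option.some.injEq]
      ext y
      simp only [E, Finset.mem_insert, Finset.mem_union, Finset.mem_singleton, Finset.mem_Icc]
      omega
    · obtain rfl : k = 3 := by omega
      rw [BFs_three, hL.last]
      congr 1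
      ext y
      simp only [E, Finset.mem_insert, Finset.mem_union, Finset.mem_singleton, Finset.mem_Icc]
      omega
  · -- cross
    intro k l hk hkl hl a ha b hb hba
    obtain ⟨j, rfl⟩ : ∃ j, l = j + 1 := ⟨l - 1, by omega⟩
    rcases Nat.lt_or_ge 3 k with h4 | h4
    · obtain ⟨i, rfl⟩ : ∃ i, k = i + 1 := ⟨k - 1, by omega⟩
      rcases BFs_mem (by omega) ha with ha | ⟨a', ha', rfl⟩
      · rcases BFs_mem (by omega) hb with hb | ⟨b', hb', rfl⟩
        · exact hP.cross i j (by omega) (by omega) a ha b hb hba
        · exact hpn _ (by omega) a ha (hba (Finset.mem_insert_self _ _))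
      · rcases BFs_mem (by omega) hb with hb | ⟨b', hb', rfl⟩
        · have hba' : b ⊆ a' := BFs_sub_of_ins (hpn _ (by omega) b hb) hba
          have h1 := Finset.card_le_card hba'
          have h2 := hP.card j (by omega) b hb
          have h3 := hc.card i (by omega) (by omega) a' ha'
          omega
        · exact hc.cross i j (by omega) (by omega) (by omega) a' ha' b' hb'
            (BFs_sub_of_ins_ins (hcn j (by omega) (by omega) b' hb') hba)
    · obtain rfl : k = 3 := by omega
      rw [BFs_three] at ha
      have hac := hL.card a ha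
      have hle := Finset.card_le_card hba
      rcases BFs_mem (by omega) hb with hb | ⟨b', hb', rfl⟩
      · have hbc := hP.card j (by omega) b hb
        have hba2 : b = a := Finset.eq_of_subset_of_card_le hba (by omega)
        have hbn : n + 1 ∉ b := hpn j (by omega) b hb
        rcases hL.mem3 a ha (by omega) with ha' | ⟨p, hp, hp2, hp3, rfl⟩ | ⟨b0, hb0, hb02, rfl⟩
        · have ha2 := hRX a ha'
          rcases BFs_mempg hb with hb1 | ⟨y, hy, rfl⟩
          · exact hX.cross 2 j (by omega) a ha2 b hb1 hba
          · exact (hXs 2 a ha2 (n - 1) (hba (Finset.mem_insert_self _ _))).2.2 rfl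
        · rw [hba2] at hbn
          exact hbn (Finset.mem_insert_self _ _)
        · rcases BFs_mempg hb with hb1 | ⟨y, hy, rfl⟩
          · rw [hba2] at hb1
            exact (hXs j _ hb1 (n - 1) (Finset.mem_insert_self _ _)).2.2 rfl
          · have hyn : n - 1 ∉ y := fun h => (hYs _ y hy (n - 1) h).2.2 rfl
            rw [← hY1] at hb0
            exact hY.cross 1 (j - 1) (by omega) b0 hb0 y hy (BFs_sub_of_ins_ins hyn hba)
      · have hbn := hcn j (by omega) (by omega) b' hb'
        rw [Finset.card_insert_of_notMem hbn] at hle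
        have hbc := hc.card j (by omega) (by omega) b' hb'
        have hn1 : n + 1 ∈ a := hba (Finset.mem_insert_self _ _)
        rcases hL.mem3 a ha (by omega) with ha' | ⟨p, hp, hp2, hp3, rfl⟩ | ⟨b0, hb0, hb02, rfl⟩
        · have := (hXs 2 a (hRX a ha') (n + 1) hn1).2.1
          omega
        · have h5 : b' ⊆ p := BFs_sub_of_ins_ins hbn hba
          have h6 := Finset.card_le_card h5
          have h7 : b' = p := Finset.eq_of_subset_of_card_le h5 (by omega)
          have h8 : j = 3 := by omega
          subst h8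
          exact hc.H b' hb' (by rw [h7, hp2]) (h7 ▸ hp)
        · rw [← hY1] at hb0
          rcases Finset.mem_insert.1 hn1 with h5 | h5
          · omega
          · have := (hYs 1 b0 hb0 (n + 1) h5).2.1
            omega
  · -- inv
    intro k hk hk' b hb hbT
    rcases Nat.lt_or_ge 3 k with h4 | h4
    · obtain ⟨j, rfl⟩ : ∃ j, k = j + 1 := ⟨k - 1, by omega⟩
      have hTT : T (n + 1) (j + 1) = insert (n + 1) (T n j) := by
        ext y
        simp only [T, Finset.mem_insert, Finset.mem_union, Finset.mem_singleton, Finset.mem_Icc]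
        omega
      rw [hTT] at hbT
      rcases BFs_mem (by omega) hb with hb | ⟨b', hb', rfl⟩
      · have hbT' : b ⊆ T n j := BFs_sub_of_ins (hpn j (by omega) b hb) hbT
        have h3 : j = 3 ∨ j = 4 ∨ 5 ≤ j := by omega
        rcases h3 with rfl | rfl | h5
        · rcases BFs_mempg hb with hb1 | ⟨y, hy, rfl⟩
          · refine hX.cross 2 3 (by omega) _ hfirst b hb1 (fun y hy => ?_)
            have := hbT' hy
            simp only [T, Finset.mem_insert, Finset.mem_union, Finset.mem_singleton,
              Finset.mem_Icc] at this ⊢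
            omega
          · have := hbT' (Finset.mem_insert_self _ _)
            simp only [T, Finset.mem_insert, Finset.mem_union, Finset.mem_singleton,
              Finset.mem_Icc] at this
            omega
        · rcases BFs_mempg hb with hb1 | ⟨y, hy, rfl⟩
          · have h6 := hX.head 3 (by
              simp only [sX, List.length_cons, List.length_range']
              omega)
            refine hX.cross 3 4 (by omega) _ (List.mem_of_head? h6) b hb1 (fun y hy => ?_)
            have := hbT' hy
            simp only [T, Finset.mem_insert, Finset.mem_union, Finset.mem_singleton,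
              Finset.mem_Icc, sX, List.take_succ_cons, List.take_zero, List.mem_toFinset,
              List.mem_cons, List.not_mem_nil, or_false] at this ⊢
            omega
          · have := hbT' (Finset.mem_insert_self _ _)
            simp only [T, Finset.mem_insert, Finset.mem_union, Finset.mem_singleton,
              Finset.mem_Icc] at this
            omega
        · have hZ := hYT j h5 (by omega)
          rcases BFs_mempg hb with hb1 | ⟨y, hy, rfl⟩
          · have h6 : b ⊆ ({1, 2, 3, n} ∪ Finset.Icc (n - j + 4) (n - 2) : Finset ℕ) := by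
              intro y hy
              have h7 := hbT' hy
              have h8 := (hXs j b hb1 y hy).2.2
              simp only [T, Finset.mem_insert, Finset.mem_union, Finset.mem_singleton,
                Finset.mem_Icc] at h7 ⊢
              omega
            have h7 := Finset.card_le_card h6
            have h8 := Finset.card_union_le ({1, 2, 3, n} : Finset ℕ)
              (Finset.Icc (n - j + 4) (n - 2))
            have h9 : ({1, 2, 3, n} : Finset ℕ).card ≤ 4 := Finset.card_le_four
            rw [Nat.card_Icc] at h8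
            have h10 := hX.card j b hb1
            omega
          · have hyn : n - 1 ∉ y := fun h => (hYs _ y hy (n - 1) h).2.2 rfl
            refine hY.cross (j - 2) (j - 1) (by omega) _ hZ y hy (fun z hz => ?_)
            have h7 := hbT' (Finset.mem_insert_of_mem hz)
            have h8 : z ≠ n - 1 := fun h => hyn (h ▸ hz)
            simp only [T, Finset.mem_insert, Finset.mem_union, Finset.mem_singleton,
              Finset.mem_Icc] at h7 ⊢
            omega
      · exact hc.inv j (by omega) (by omega) b' hb'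
          (BFs_sub_of_ins_ins (hcn j (by omega) (by omega) b' hb') hbT)
    · obtain rfl : k = 3 := by omega
      rw [BFs_three] at hb
      have hT3 : ∀ y ∈ b, y = 3 ∨ y = 2 ∨ y = 1 := by
        intro y hy
        have h7 := hbT hy
        simp only [T, Finset.mem_insert, Finset.mem_union, Finset.mem_singleton,
          Finset.mem_Icc] at h7
        omega
      have hsub : b ⊆ {3, 2, 1} := by
        intro y hy
        have := hT3 y hy
        simp only [Finset.mem_insert, Finset.mem_singleton]
        exact this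
      rcases hL.card b hb with h2 | h2
      · rcases hL.mem2 b hb h2 with h3 | h3 | h3
        · exact hR b h3 hsub
        · have := hT3 _ h3.1
          omega
        · have := hT3 _ h3.1
          omega
      · rcases hL.mem3 b hb h2 with h3 | ⟨p, hp, hp2, hp3, rfl⟩ | ⟨b0, hb0, hb02, rfl⟩
        · exact hR b h3 hsub
        · have := hT3 _ (Finset.mem_insert_self _ _)
          omega
        · have := hT3 _ (Finset.mem_insert_self _ _)
          omega
  · -- H
    intro b hb hb2 hHU
    rw [BFs_three] at hb
    rcases hL.mem2 b hb hb2 with h3 | h3 | h3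
    · have h4 := hRX b h3
      rcases BFs_HU hn hHU with h5 | h5 | h5 | h5
      · apply hR b h3
        rw [h5]
        intro y hy
        simp only [Finset.mem_insert, Finset.mem_singleton] at hy ⊢
        omega
      · have := (hXs 2 b h4 _ h5.2).2.1
        omega
      · have := (hXs 2 b h4 _ h5.1).2.1
        omega
      · have h6 := h5.1
        rw [← hX1] at h6
        exact hX.cross 1 2 (by omega) b h6 b h4 (Finset.Subset.refl _)
    · rcases BFs_HU hn hHU with h5 | h5 | h5 | h5
      · have := h3.1
        rw [h5, Finset.mem_insert, Finset.mem_singleton] at this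
        omega
      · exact h3.2 h5.2
      · exact h3.2 h5.1
      · exact (BFs_memsX hn (h5.2 h3.1)).2.2 rfl
    · rcases BFs_HU hn hHU with h5 | h5 | h5 | h5
      · have := h3.1
        rw [h5, Finset.mem_insert, Finset.mem_singleton] at this
        omega
      · exact h3.2.1 h5.1
      · exact h3.2.2 h5.2
      · have := (BFs_memsX hn (h5.2 h3.1)).2.1
        omega

end Pool.Agent.Helper722.FX
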