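import Mathlib
import Pool.Agent.Helper605.FT.A
import Pool.Agent.Helper732.FT2.Base
import Pool.Agent.Helper722.FX.Defs

set_option autoImplicit false

namespace Pool.Agent.Helper722.FX

open Pool.Agent.Helper605.FT Pool.Agent.Helper732.FT2


theorem ok_iff_getElem : ∀ L : List (Finset ℕ), Ok L ↔
    (∀ (i : ℕ) (h : i + 1 < L.length), Adj (L[i]'(by omega)) (L[i + 1])) ∧
    (∀ (i j : ℕ) (hij : i + 1 < j) (hj : j < L.length), ¬ L[j] ⊆ L[i]'(by omega))
  | [] => by
    constructor
    · intro _
      refine ⟨?_, ?_⟩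
      · intro i h
        simp at h
      · intro i j _ hj
        simp at hj
    · intro _
      trivial
  | [a] => by
    constructor
    · intro _
      refine ⟨?_, ?_⟩
      · intro i h
        simp at h
      · intro i j hij hj
        simp at hj
        omega
    · intro _
      trivial
  | a :: b :: L => by
    rw [Ok, ok_iff_getElem (b :: L)]
    constructor
    · rintro ⟨h1, h2, h3, h4⟩
      refine ⟨?_, ?_⟩
      · intro i h
        cases i with
        | zero => exact h1
        | succ i => exact h3 i (by simpa using h)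
      · intro i j hij hj
        cases j with
        | zero => omega
        | succ j =>
          cases i with
          | zero =>
            cases j with
            | zero => omega
            | succ j => exact h2 _ (List.getElem_mem (by simpa using hj))
          | succ i => exact h4 i j (by omega) (by simpa using hj)
    · rintro ⟨h1, h2⟩
      refine ⟨h1 0 (by simp), ?_, ?_, ?_⟩
      · intro c hc
        obtain ⟨k, hk, rfl⟩ := List.getElem_of_mem hc
        exact h2 0 (k + 2) (by omega) (by simp; omega)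
      · intro i h
        exact h1 (i + 1) (by simpa using h)
      · intro i j hij hj
        exact h2 (i + 1) (j + 1) (by omega) (by simpa using hj)

theorem adj_card {a b : Finset ℕ} (h : Adj a b) :
    (a ⊆ b ∧ b.card = a.card + 1) ∨ (b ⊆ a ∧ a.card = b.card + 1) := by
  rcases h with ⟨x, hx, rfl⟩ | ⟨x, hx, rfl⟩
  · exact Or.inl ⟨Finset.subset_insert _ _, Finset.card_insert_of_notMem hx⟩
  · exact Or.inr ⟨Finset.subset_insert _ _, Finset.card_insert_of_notMem hx⟩

theorem adj_symm {a b : Finset ℕ} (h : Adj a b) : Adj b a := Or.symm h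

theorem three_sup (n : ℕ) (hn : 3 ≤ n) (A P Q R : Finset ℕ) (hA : A ⊆ Finset.Icc 1 n)
    (hAc : A.card = n - 2)
    (hP : P ⊆ Finset.Icc 1 n) (hQ : Q ⊆ Finset.Icc 1 n) (hR : R ⊆ Finset.Icc 1 n)
    (hPc : P.card = n - 1) (hQc : Q.card = n - 1) (hRc : R.card = n - 1)
    (hAP : A ⊆ P) (hAQ : A ⊆ Q) (hAR : A ⊆ R) (h1 : P ≠ Q) (h2 : P ≠ R) (h3 : Q ≠ R) : False := by
  have hone : ∀ S : Finset ℕ, A ⊆ S → S.card = n - 1 → ∃ x, x ∉ A ∧ S = insert x A := by
    intro S hS hSc
    have h4 : (S \ A).card = 1 := by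
      rw [Finset.card_sdiff_of_subset hS]
      omega
    obtain ⟨x, hx⟩ := Finset.card_eq_one.1 h4
    have hx' : x ∈ S \ A := by rw [hx]; exact Finset.mem_singleton_self x
    refine ⟨x, (Finset.mem_sdiff.1 hx').2, ?_⟩
    rw [← Finset.sdiff_union_of_subset hS, hx]
    rfl
  obtain ⟨p, hp, rfl⟩ := hone P hAP hPc
  obtain ⟨q, hq, rfl⟩ := hone Q hAQ hQc
  obtain ⟨r, hr, rfl⟩ := hone R hAR hRc
  have hpq : p ≠ q := fun h => h1 (by rw [h])
  have hpr : p ≠ r := fun h => h2 (by rw [h])
  have hqr : q ≠ r := fun h => h3 (by rw [h])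
  have hsub : ({p, q, r} : Finset ℕ) ⊆ Finset.Icc 1 n \ A := by
    intro x hx
    simp only [Finset.mem_insert, Finset.mem_singleton] at hx
    rcases hx with rfl | rfl | rfl
    · exact Finset.mem_sdiff.2 ⟨hP (Finset.mem_insert_self _ _), hp⟩
    · exact Finset.mem_sdiff.2 ⟨hQ (Finset.mem_insert_self _ _), hq⟩
    · exact Finset.mem_sdiff.2 ⟨hR (Finset.mem_insert_self _ _), hr⟩
  have hcard := Finset.card_le_card hsub
  rw [Finset.card_sdiff_of_subset hA, Nat.card_Icc, hAc] at hcard
  have h3c : ({p, q, r} : Finset ℕ).card = 3 := by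
    rw [Finset.card_insert_of_notMem, Finset.card_insert_of_notMem, Finset.card_singleton]
    · simpa using hqr
    · simp only [Finset.mem_insert, Finset.mem_singleton, not_or]
      exact ⟨hpq, hpr⟩
  omega



theorem rev_ok (n : ℕ) (hn : 3 ≤ n) (L : List (Finset ℕ)) (hL : Ok L)
    (hs : ∀ a ∈ L, a ⊆ Finset.Icc 1 n) (hc : ∀ a ∈ L, a.card = n - 2 ∨ a.card = n - 1)
    (hh : ∀ a ∈ L.head?, a.card = n - 1) (hl : ∀ a ∈ L.getLast?, a.card = n - 1) :
    Ok L.reverse := by
  rw [ok_iff_getElem] at hL ⊢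
  obtain ⟨hadj, hnot⟩ := hL
  have hkey : ∀ (i j : ℕ) (hij : i + 1 < j) (hjL : j < L.length), ¬ L[i]'(by omega) ⊆ L[j] := by
    intro i j hij hjL
    intro hsub
    have hne : L[i] ≠ L[j] := by
      intro h
      exact hnot i j hij hjL (by rw [h])
    have hss : L[i] ⊂ L[j] := Finset.ssubset_iff_subset_ne.2 ⟨hsub, hne⟩
    have hlt := Finset.card_lt_card hss
    have hci := hc L[i] (List.getElem_mem _)
    have hcj := hc L[j] (List.getElem_mem _)
    have hci' : (L[i]).card = n - 2 := by omega
    have hcj' : (L[j]).card = n - 1 := by omega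
    have hi0 : i ≠ 0 := by
      rintro rfl
      have h5 : L.head? = some L[0] := by
        rw [List.head?_eq_getElem?, List.getElem?_eq_getElem]
      have h6 := hh L[0] (by rw [h5]; rfl)
      omega
    obtain ⟨k, rfl⟩ : ∃ k, i = k + 1 := ⟨i - 1, by omega⟩
    have ha1 := adj_card (hadj k (by omega))
    have ha2 := adj_card (hadj (k + 1) (by omega))
    have hck := hc L[k] (List.getElem_mem _)
    have hck2 := hc L[k + 1 + 1] (List.getElem_mem _)
    have hk1 : L[k + 1] ⊆ L[k] ∧ (L[k]).card = n - 1 := by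
      rcases ha1 with ⟨_, h7⟩ | ⟨h7, h8⟩
      · omega
      · exact ⟨h7, by omega⟩
    have hk2 : L[k + 1] ⊆ L[k + 1 + 1] ∧ (L[k + 1 + 1]).card = n - 1 := by
      rcases ha2 with ⟨h7, h8⟩ | ⟨_, h7⟩
      · exact ⟨h7, by omega⟩
      · omega
    have hd1 : L[k] ≠ L[k + 1 + 1] := by
      intro h
      exact hnot k (k + 1 + 1) (by omega) (by omega) (by rw [h])
    have hd2 : L[k] ≠ L[j] := by
      intro h
      exact hnot k j (by omega) hjL (by rw [h])
    have hd3 : L[k + 1 + 1] ≠ L[j] := by
      intro h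
      rcases Nat.lt_or_ge (k + 1 + 1 + 1) j with h9 | h9
      · exact hnot (k + 1 + 1) j h9 hjL (by rw [h])
      · have h10 : j = k + 1 + 1 + 1 := by omega
        subst h10
        have ha3 := adj_card (hadj (k + 1 + 1) hjL)
        omega
    exact three_sup n hn L[k + 1] L[k] L[k + 1 + 1] L[j] (hs _ (List.getElem_mem _)) hci'
      (hs _ (List.getElem_mem _)) (hs _ (List.getElem_mem _)) (hs _ (List.getElem_mem _))
      hk1.2 hk2.2 hcj' hk1.1 hk2.1 hsub hd1 hd2 hd3
  refine ⟨?_, ?_⟩
  · intro i h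
    rw [List.length_reverse] at h
    rw [List.getElem_reverse, List.getElem_reverse]
    have h1 := hadj (L.length - 1 - (i + 1)) (by omega)
    have h2 : L.length - 1 - (i + 1) + 1 = L.length - 1 - i := by omega
    simp only [h2] at h1
    exact adj_symm h1
  · intro i' j' hij' hj'
    rw [List.length_reverse] at hj'
    rw [List.getElem_reverse, List.getElem_reverse]
    exact hkey (L.length - 1 - j') (L.length - 1 - i') (by omega) (by omega)

end Pool.Agent.Helper722.FX
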