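import Mathlib
import Pool.Agent.Helper605.FT.A
import Pool.Agent.Helper732.FT2.Base
import Pool.Agent.Helper722.FX.Defs

set_option autoImplicit false

namespace Pool.Agent.Helper722.FX

open Pool.Agent.Helper605.FT Pool.Agent.Helper732.FT2


theorem XX_ex (hF : FlexQ) (m : ℕ) (hm : 12 ≤ m) : ∃ X, PVf (sX m) (eX m) X ∧ X 1 = walk (sX m) ∧
    (X 2).take 3 = [{3, 2, 1}, {3, 1}, {3, 1, m}] := by
  have hs : sX m = (3 :: 2 :: 1 :: m :: 4 :: 6 :: 5 :: List.range' 7 (m - 10)) ++ [m - 3, m - 2] := by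
    unfold sX
    have e1 : m - 8 = (m - 10) + 2 := by omega
    rw [e1, ← List.range'_append_1]
    have e2 : 7 + (m - 10) = m - 3 := by omega
    have e3 : m - 2 = m - 3 + 1 := by omega
    rw [e2, e3]
    rfl
  have hnd : (sX m).Nodup := by
    unfold sX
    simp only [List.nodup_cons, List.mem_cons, List.mem_range'_1]
    refine ⟨?_, ?_, ?_, ?_, ?_, ?_, ?_, List.nodup_range'⟩ <;> omega
  have hne : (eX m).Nodup := by
    unfold eX
    simp only [List.nodup_cons, List.nodup_append, List.mem_cons, List.mem_append,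
      List.mem_range'_1]
    refine ⟨?_, ?_, ?_, List.nodup_range', ?_, ?_⟩
    · simp; omega
    · simp; omega
    · simp
    · simp
    · intro a ha b hb
      simp at hb
      omega
  have hperm : (eX m).Perm (sX m) := by
    rw [List.perm_ext_iff_of_nodup hne hnd]
    intro a
    unfold eX sX
    simp only [List.mem_cons, List.mem_append, List.mem_range'_1]
    simp
    omega
  have hlen : (sX m).length = m - 1 := by
    unfold sX
    simp; omega
  have he : eX m = (m - 2) :: m :: (4 :: (List.range' 5 (m - 7) ++ [3, 2, 1])) := rfl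
  have h := hF (m - 1) (by omega) (3 :: 2 :: 1 :: m :: 4 :: 6 :: 5 :: List.range' 7 (m - 10))
    (m - 3) (m - 2) m (4 :: (List.range' 5 (m - 7) ++ [3, 2, 1]))
  rw [← hs, ← he] at h
  obtain ⟨X, h1, h2, h3⟩ := h hlen hnd hperm (by omega)
  refine ⟨X, h1, h2, ?_⟩
  rw [h3]
  rfl

end Pool.Agent.Helper722.FX
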