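import Mathlib
import Pool.Agent.Helper605.FT.A
import Pool.Agent.Helper732.FT2.Base
import Pool.Agent.Helper722.FX.Defs

set_option autoImplicit false

namespace Pool.Agent.Helper722.FX

open Pool.Agent.Helper605.FT Pool.Agent.Helper732.FT2


theorem walk_snoc (l : List ℕ) (x y : ℕ) :
    walk (l ++ [x] ++ [y]) = walk (l ++ [x]) ++ [{x, y}, {y}] := by
  induction l with
  | nil => rfl
  | cons a l ih =>
    cases l with
    | nil => rfl
    | cons b l =>
      show ({a, b} : Finset ℕ) :: {b} :: walk (b :: l ++ [x] ++ [y]) =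
        ({a, b} :: {b} :: walk (b :: l ++ [x])) ++ [{x, y}, {y}]
      rw [ih]
      rfl

theorem two_head {L : List (Finset ℕ)} {a b : Finset ℕ} (hl : L.length = 2)
    (h1 : L.head? = some a) (h2 : L.getLast? = some b) : L = [a, b] := by
  match L, hl with
  | [u, v], _ =>
    simp at h1 h2
    rw [h1, h2]

theorem yy_rsplit (m : ℕ) (hm : 12 ≤ m) :
    List.range' 5 (m - 7) = List.range' 5 (m - 8) ++ [m - 3] := by
  have e1 : m - 7 = (m - 8) + 1 := by omega
  rw [e1, ← List.range'_append_1]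
  have e2 : 5 + (m - 8) = m - 3 := by omega
  rw [e2]
  rfl

theorem yy_m4 (m : ℕ) (hm : 12 ≤ m) :
    m :: (m - 2) :: ((List.range' 6 (m - 8)).reverse ++ [5, 4]) =
      m :: (List.range' 4 (m - 5)).reverse := by
  have e1 : m - 5 = (m - 6) + 1 := by omega
  rw [e1, ← List.range'_append_1]
  have e2 : 4 + (m - 6) = m - 2 := by omega
  have e3 : m - 6 = (m - 8) + 1 + 1 := by omega
  rw [e2, e3, List.range'_succ, List.range'_succ]
  simp

theorem YY_ex (hf : Flex) (hF : FlexQ) (m : ℕ) (hm : 12 ≤ m) :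
    ∃ Y, PVf (sY m) (eY m) Y ∧ Y 1 = walk (sY m) ∧
      ∀ j, 5 ≤ j → j ≤ m → ({1, 2, 3, m} ∪ Finset.Icc (m - j + 4) (m - 2) : Finset ℕ) ∈ Y (j - 2) := by
  have hRs := yy_rsplit m hm
  have hRm : ∀ a, a ∈ List.range' 5 (m - 7) ↔ 5 ≤ a ∧ a ≤ m - 3 := by
    intro a
    rw [List.mem_range'_1]
    omega
  have hR'm : ∀ a, a ∈ List.range' 5 (m - 8) ↔ 5 ≤ a ∧ a ≤ m - 4 := by
    intro a
    rw [List.mem_range'_1]
    omega
  have hQm : ∀ a, a ∈ List.range' 6 (m - 8) ↔ 6 ≤ a ∧ a ≤ m - 3 := by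
    intro a
    rw [List.mem_range'_1]
    omega
  have hSm : ∀ a, a ∈ List.range' 7 (m - 8) ↔ 7 ≤ a ∧ a ≤ m - 2 := by
    intro a
    rw [List.mem_range'_1]
    omega
  have hRn : (List.range' 5 (m - 7)).Nodup := List.nodup_range'
  have hR'n : (List.range' 5 (m - 8)).Nodup := List.nodup_range'
  have hQn : (List.range' 6 (m - 8)).Nodup := List.nodup_range'
  have hSn : (List.range' 7 (m - 8)).Nodup := List.nodup_range'
  have hRl : (List.range' 5 (m - 7)).length = m - 7 := List.length_range'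
  have hR'l : (List.range' 5 (m - 8)).length = m - 8 := List.length_range'
  have hQl : (List.range' 6 (m - 8)).length = m - 8 := List.length_range'
  have hSl : (List.range' 7 (m - 8)).length = m - 8 := List.length_range'
  have hm4 := yy_m4 m hm
  unfold sY eY
  generalize List.range' 7 (m - 8) = S at *
  generalize List.range' 6 (m - 8) = Q at *
  generalize List.range' 5 (m - 7) = R at *
  generalize List.range' 5 (m - 8) = R' at *
  -- the lists
  have h4n : (m :: (m - 2) :: (Q.reverse ++ [5, 4])).Nodup := by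
    simp only [List.nodup_cons, List.nodup_append, List.nodup_reverse, List.mem_cons,
      List.mem_append, List.mem_reverse, hQm, List.not_mem_nil, or_false, List.nodup_nil, and_true]
    refine ⟨by omega, by omega, hQn, by simp, ?_⟩
    intro a ha b hb
    omega
  have h4m : ∀ a, a ∈ m :: (m - 2) :: (Q.reverse ++ [5, 4]) ↔ ((4 ≤ a ∧ a ≤ m - 2) ∨ a = m) := by
    intro a
    simp only [List.mem_cons, List.mem_append, List.mem_reverse, hQm, List.not_mem_nil, or_false]
    omega
  have h3n : (4 :: (m - 2) :: (R ++ [m])).Nodup := by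
    simp only [List.nodup_cons, List.nodup_append, List.nodup_reverse, List.mem_cons,
      List.mem_append, List.mem_reverse, hRm, List.not_mem_nil, or_false, List.nodup_nil, and_true]
    refine ⟨by omega, by omega, hRn, by simp, ?_⟩
    intro a ha b hb
    omega
  have h3m : ∀ a, a ∈ 4 :: (m - 2) :: (R ++ [m]) ↔ ((4 ≤ a ∧ a ≤ m - 2) ∨ a = m) := by
    intro a
    simp only [List.mem_cons, List.mem_append, List.mem_reverse, hRm, List.not_mem_nil, or_false]
    omega
  have he4n : (4 :: 6 :: 5 :: (S ++ [m])).Nodup := by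
    simp only [List.nodup_cons, List.nodup_append, List.nodup_reverse, List.mem_cons,
      List.mem_append, List.mem_reverse, hSm, List.not_mem_nil, or_false, List.nodup_nil, and_true]
    refine ⟨by omega, by omega, by omega, hSn, by simp, ?_⟩
    intro a ha b hb
    omega
  have he4m : ∀ a, a ∈ 4 :: 6 :: 5 :: (S ++ [m]) ↔ ((4 ≤ a ∧ a ≤ m - 2) ∨ a = m) := by
    intro a
    simp only [List.mem_cons, List.mem_append, List.mem_reverse, hSm, List.not_mem_nil, or_false]
    omega
  have h3bn : (4 :: (m - 2) :: (R ++ [m]) ++ [2]).Nodup := by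
    rw [List.nodup_append]
    refine ⟨h3n, by simp, ?_⟩
    intro a ha b hb
    rw [h3m] at ha
    rw [List.mem_singleton] at hb
    omega
  have h3bm : ∀ a, a ∈ 4 :: (m - 2) :: (R ++ [m]) ++ [2] ↔
      ((4 ≤ a ∧ a ≤ m - 2) ∨ a = m ∨ a = 2) := by
    intro a
    rw [List.mem_append, h3m, List.mem_singleton]
    omega
  have h2n : (2 :: m :: (m - 2) :: (R ++ [4])).Nodup := by
    simp only [List.nodup_cons, List.nodup_append, List.nodup_reverse, List.mem_cons,
      List.mem_append, List.mem_reverse, hRm, List.not_mem_nil, or_false, List.nodup_nil, and_true]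
    refine ⟨by omega, by omega, by omega, hRn, by simp, ?_⟩
    intro a ha b hb
    omega
  have h2m : ∀ a, a ∈ 2 :: m :: (m - 2) :: (R ++ [4]) ↔
      ((4 ≤ a ∧ a ≤ m - 2) ∨ a = m ∨ a = 2) := by
    intro a
    simp only [List.mem_cons, List.mem_append, List.mem_reverse, hRm, List.not_mem_nil, or_false]
    omega
  have h2bn : (2 :: m :: (m - 2) :: (R ++ [4]) ++ [3]).Nodup := by
    rw [List.nodup_append]
    refine ⟨h2n, by simp, ?_⟩
    intro a ha b hb
    rw [h2m] at ha
    rw [List.mem_singleton] at hb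
    omega
  have h2bm : ∀ a, a ∈ 2 :: m :: (m - 2) :: (R ++ [4]) ++ [3] ↔
      ((4 ≤ a ∧ a ≤ m - 2) ∨ a = m ∨ a = 2 ∨ a = 3) := by
    intro a
    rw [List.mem_append, h2m, List.mem_singleton]
    omega
  have h1n : (4 :: (m - 2) :: m :: (R ++ [3, 2])).Nodup := by
    simp only [List.nodup_cons, List.nodup_append, List.nodup_reverse, List.mem_cons,
      List.mem_append, List.mem_reverse, hRm, List.not_mem_nil, or_false, List.nodup_nil, and_true]
    refine ⟨by omega, by omega, by omega, hRn, by simp, ?_⟩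
    intro a ha b hb
    omega
  have h1m : ∀ a, a ∈ 4 :: (m - 2) :: m :: (R ++ [3, 2]) ↔
      ((4 ≤ a ∧ a ≤ m - 2) ∨ a = m ∨ a = 2 ∨ a = 3) := by
    intro a
    simp only [List.mem_cons, List.mem_append, List.mem_reverse, hRm, List.not_mem_nil, or_false]
    omega
  -- the pieces
  have hZ : PV (m :: (m - 2) :: (Q.reverse ++ [5, 4])) (4 :: 6 :: 5 :: (S ++ [m])) :=
    hf (m - 4) (by omega) (m :: (m - 2) :: Q.reverse) 5 4 6 _
      (by simp [hQl]; omega) h4n
      ((List.perm_ext_iff_of_nodup he4n h4n).2 (fun a => (he4m a).trans (h4m a).symm)) (by omega)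
  have e3 : 4 :: (m - 2) :: (R ++ [m]) = (4 :: (m - 2) :: R') ++ [m - 3, m] := by
    rw [hRs]; simp
  have hZ1 : PV (4 :: (m - 2) :: (R ++ [m])) (m :: (m - 2) :: (Q.reverse ++ [5, 4])) := by
    have hn' := h3n
    have hp' := (List.perm_ext_iff_of_nodup h4n h3n).2 (fun a => (h4m a).trans (h3m a).symm)
    have hl' : (4 :: (m - 2) :: (R ++ [m])).length = m - 4 := by
      simp [hRl]; omega
    rw [e3] at hn' hp' hl' ⊢
    exact hf (m - 4) (by omega) _ _ _ _ _ hl' hn' hp' (by omega)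
  have e2 : 2 :: m :: (m - 2) :: (R ++ [4]) = (2 :: m :: (m - 2) :: R') ++ [m - 3, 4] := by
    rw [hRs]; simp
  have hY3 : PV (2 :: m :: (m - 2) :: (R ++ [4])) (4 :: (m - 2) :: (R ++ [m]) ++ [2]) := by
    have hn' := h2n
    have hp' := (List.perm_ext_iff_of_nodup h3bn h2n).2 (fun a => (h3bm a).trans (h2m a).symm)
    have hl' : (2 :: m :: (m - 2) :: (R ++ [4])).length = m - 3 := by
      simp [hRl]; omega
    rw [e2] at hn' hp' hl' ⊢
    exact hf (m - 3) (by omega) _ _ _ _ _ hl' hn' hp' (by omega)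
  have e1 : 4 :: (m - 2) :: m :: (R ++ [3, 2]) = (4 :: (m - 2) :: m :: R) ++ [3, 2] := rfl
  have e1b : 2 :: m :: (m - 2) :: (R ++ [4]) ++ [3] =
    2 :: m :: ((m - 2) :: (R ++ [4]) ++ [3]) := rfl
  have hp1 : (2 :: m :: ((m - 2) :: (R ++ [4]) ++ [3])).Perm ((4 :: (m - 2) :: m :: R) ++ [3, 2]) := by
    rw [← e1, ← e1b]
    exact (List.perm_ext_iff_of_nodup h2bn h1n).2 (fun a => (h2bm a).trans (h1m a).symm)
  obtain ⟨Y1, hY1, hY1w, -⟩ := hF (m - 2) (by omega) (4 :: (m - 2) :: m :: R) 3 2 m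
    ((m - 2) :: (R ++ [4]) ++ [3]) (by simp [hRl]; omega) h1n hp1 (by omega)
  obtain ⟨Z, hZ⟩ := hZ
  obtain ⟨Z1, hZ1⟩ := hZ1
  obtain ⟨Y3, hY3⟩ := hY3
  have hY4 := hZ1.merge hZ (x := 2) (by rw [h3m]; omega) (by simp)
  have hY2 := hY3.merge hY4 (x := 3) (by rw [h2m]; omega) (by simp)
  have hY := PVf.merge (x := 1) hY1 hY2 (by
    show 1 ∉ 4 :: (m - 2) :: m :: (R ++ [3, 2])
    rw [h1m]; omega) (by simp)
  have es : 4 :: (m - 2) :: m :: (R ++ [3, 2, 1]) = 4 :: (m - 2) :: m :: R ++ [3, 2] ++ [1] := by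
    simp
  refine ⟨mg 1 Y1 (mg 3 Y3 (mg 2 Z1 Z)), ?_, ?_, ?_⟩
  · rw [es]
    exact hY
  · have h0 : mg 3 Y3 (mg 2 Z1 Z) 0 = [{2}, ∅] := by
      apply two_head
      · have := hY2.len 0
        rw [this]
        simp
      · have := hY2.head 0 (by simp)
        rw [this]
        simp
      · have := hY2.last 0 (by simp)
        rw [this]
        simp
    show Y1 1 ++ (mg 3 Y3 (mg 2 Z1 Z) 0).map (insert 1) = _
    rw [h0, hY1w, es]
    have es2 : 4 :: (m - 2) :: m :: R ++ [3, 2] = (4 :: (m - 2) :: m :: (R ++ [3])) ++ [2] := by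
      simp
    rw [es2, walk_snoc]
    congr 1
    simp [Finset.pair_comm]
  · intro j hj5 hjm
    obtain ⟨i, rfl⟩ : ∃ i, j = i + 5 := ⟨j - 5, by omega⟩
    have hh := hZ.head i (by simp [hQl]; omega)
    have hmem := List.mem_of_head? hh
    have htake : (m :: (m - 2) :: (Q.reverse ++ [5, 4])).take (i + 1) =
        m :: (List.range' (m - (i + 5) + 4) i).reverse := by
      rw [hm4, List.take_succ_cons, List.take_reverse, List.length_range', List.drop_range']
      congr 3
      · omega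
      · omega
    rw [htake] at hmem
    show _ ∈ mg 1 Y1 (mg 3 Y3 (mg 2 Z1 Z)) (i + 1 + 1 + 1)
    simp only [mg, List.mem_append, List.mem_map]
    right
    refine ⟨_, Or.inr ⟨_, Or.inr ⟨_, hmem, rfl⟩, rfl⟩, ?_⟩
    ext a
    simp only [List.toFinset_cons, List.toFinset_reverse, Finset.mem_insert, List.mem_toFinset,
      List.mem_range'_1, Finset.mem_Icc, Finset.mem_union, Finset.mem_singleton]
    omega

end Pool.Agent.Helper722.FX
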