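import Mathlib
import Pool.Agent.Helper605.FT.A
import Pool.Agent.Helper732.FT2.Base
import Pool.Agent.Helper722.FX.Defs

set_option autoImplicit false

namespace Pool.Agent.Helper722.FX

open Pool.Agent.Helper605.FT Pool.Agent.Helper732.FT2


theorem walk_snoc3 (l : List ℕ) (a b : ℕ) :
    walk (l ++ [a, b]) = walk (l ++ [a]) ++ [{a, b}, {b}] := by
  induction l with
  | nil => simp [walk]
  | cons c l ih =>
    cases l with
    | nil => simp [walk]
    | cons d l =>
      simp only [List.cons_append, walk] at ih ⊢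
      rw [ih]

theorem zero_list {s e : List ℕ} {π : ℕ → List (Finset ℕ)} (h : PVf s e π) (a : ℕ) (s' : List ℕ)
    (hs : s = a :: s') : π 0 = [{a}, ∅] := by
  subst hs
  have h1 := h.len 0
  have h2 := h.head 0 (by simp)
  have h3 := h.last 0 (by simp)
  simp only [Nat.choose_zero_right, mul_one] at h1
  rw [List.length_eq_two] at h1
  obtain ⟨u, v, huv⟩ := h1
  rw [huv] at h2 h3 ⊢
  simp at h2 h3
  rw [h2, h3]

theorem topX_ex (hf : Flex) (hF : FlexQ) (m : ℕ) (hm : 12 ≤ m) (σ : List ℕ)
    (hσ : (σ ++ [2, 3, m - 2]).Perm (sX m)) (h1 : σ.getLast? ≠ some 1) :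
    ∃ X, PVf (σ ++ [2, 3, m - 2]) (eX m) X ∧ X 1 = walk (σ ++ [2, 3, m - 2]) ∧
      ({1, 2, 3} : Finset ℕ) ∈ X 2 ∧ ({1, 2, 3, m} : Finset ℕ) ∈ X 3 := by
  have hsXnd : (sX m).Nodup := by
    unfold sX
    simp only [List.nodup_cons, List.mem_cons, List.mem_range'_1, List.nodup_range']
    refine ⟨?_, ?_, ?_, ?_, ?_, ?_, ?_, List.nodup_range'⟩ <;> omega
  have hnd : (σ ++ [2, 3, m - 2]).Nodup := hσ.nodup_iff.2 hsXnd
  have hmemX : ∀ a, a ∈ sX m ↔ (1 ≤ a ∧ a ≤ m ∧ a ≠ m - 1) := by
    intro a
    unfold sX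
    simp only [List.mem_cons, List.mem_range'_1]
    omega
  have hnd' := hnd
  rw [List.nodup_append] at hnd'
  obtain ⟨hσnd, _, hdis⟩ := hnd'
  have hmem : ∀ a, a ∈ σ ↔ (1 ≤ a ∧ a ≤ m ∧ a ≠ m - 1 ∧ a ≠ 2 ∧ a ≠ 3 ∧ a ≠ m - 2) := by
    intro a
    have h2 : a ∈ σ ++ [2, 3, m - 2] ↔ a ∈ sX m := hσ.mem_iff
    rw [hmemX, List.mem_append] at h2
    simp only [List.mem_cons, List.not_mem_nil, or_false] at h2
    constructor
    · intro ha
      have h3 := h2.1 (Or.inl ha)
      have h4 := hdis a ha 2 (by simp)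
      have h5 := hdis a ha 3 (by simp)
      have h6 := hdis a ha (m - 2) (by simp)
      exact ⟨h3.1, h3.2.1, h3.2.2, h4, h5, h6⟩
    · rintro ⟨h3, h4, h5, h6, h7, h8⟩
      rcases h2.2 ⟨h3, h4, h5⟩ with h9 | h9 | h9 | h9
      · exact h9
      · exact absurd h9 h6
      · exact absurd h9 h7
      · exact absurd h9 h8
  have hlen : σ.length = m - 4 := by
    have h3 := hσ.length_eq
    unfold sX at h3
    simp at h3
    omega
  obtain ⟨σ', p, rfl⟩ : ∃ σ' p, σ = σ' ++ [p] := by
    rcases List.eq_nil_or_concat σ with h | ⟨u, y, h⟩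
    · rw [h] at hlen
      simp at hlen
      omega
    · exact ⟨u, y, by rw [h, List.concat_eq_append]⟩
  have hp1 : p ≠ 1 := by
    intro h
    apply h1
    rw [h]
    simp
  have hs2nd : (σ' ++ [p] ++ [2]).Nodup := by
    rw [List.nodup_append]
    refine ⟨hσnd, by simp, ?_⟩
    intro a ha b hb
    simp only [List.mem_cons, List.not_mem_nil, or_false] at hb
    subst hb
    exact ((hmem a).1 ha).2.2.2.1
  have hm2nd : (2 :: 1 :: m :: (List.range' 6 (m - 8) ++ [5, 4])).Nodup := by
    simp only [List.nodup_cons, List.mem_cons, List.mem_append, List.mem_range'_1,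
      List.not_mem_nil, or_false, List.nodup_append, List.nodup_range', List.nodup_nil]
    refine ⟨by omega, by omega, by omega, List.nodup_range', ⟨by omega, by simp, trivial⟩, ?_⟩
    intro a ha b hb
    omega
  have hm1nd : (4 :: 6 :: (List.range' 7 (m - 9) ++ [1, 2, 5, m])).Nodup := by
    simp only [List.nodup_cons, List.mem_cons, List.mem_append, List.mem_range'_1,
      List.not_mem_nil, or_false, List.nodup_append, List.nodup_range', List.nodup_nil]
    refine ⟨by omega, by omega, List.nodup_range', ⟨by omega, by omega, by omega, by simp, trivial⟩, ?_⟩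
    intro a ha b hb
    omega
  have hend : (m :: 4 :: (List.range' 5 (m - 7) ++ [3, 2, 1])).Nodup := by
    simp only [List.nodup_cons, List.mem_cons, List.mem_append, List.mem_range'_1,
      List.not_mem_nil, or_false, List.nodup_append, List.nodup_range', List.nodup_nil]
    refine ⟨by omega, by omega, List.nodup_range', ⟨by omega, by omega, by simp, trivial⟩, ?_⟩
    intro a ha b hb
    omega
  -- A1
  obtain ⟨A1, hA1, hA11, _⟩ := hF (m - 3) (by omega) σ' p 2 1 (m :: (List.range' 6 (m - 8) ++ [5, 4]))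
    (by simp at hlen ⊢; omega) (by simpa using hs2nd)
    (by
      refine (List.perm_ext_iff_of_nodup hm2nd (by simpa using hs2nd)).2 fun a => ?_
      have h3 := hmem a
      simp only [List.mem_cons, List.mem_append, List.mem_range'_1, List.not_mem_nil, or_false] at h3 ⊢
      have h5 : (a ∈ σ' ∨ a = p ∨ a = 2) ↔ ((a ∈ σ' ∨ a = p) ∨ a = 2) := by tauto
      rw [h5, h3]
      omega) hp1.symm
  -- A2
  obtain ⟨A2, hA2⟩ := hf (m - 3) (by omega) (2 :: 1 :: m :: List.range' 6 (m - 8)) 5 4 6
    (List.range' 7 (m - 9) ++ [1, 2, 5, m]) (by simp; omega) (by simpa using hm2nd)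
    (by
      refine (List.perm_ext_iff_of_nodup hm1nd (by simpa using hm2nd)).2 fun a => ?_
      simp only [List.mem_cons, List.mem_append, List.mem_range'_1, List.not_mem_nil, or_false]
      omega) (by omega)
  -- A
  have hA := PVf.merge (x := 3) hA1 hA2 (by
    intro h3
    have h4 := hmem 3
    simp only [List.mem_cons, List.mem_append, List.not_mem_nil, or_false] at h3 h4
    rcases h3 with h3 | h3 | h3
    · have := h4.1 (Or.inl h3)
      omega
    · have := h4.1 (Or.inr h3)
      omega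
    · omega) (by simp)
  -- B
  obtain ⟨B, hB⟩ := hf (m - 2) (by omega) (3 :: 4 :: 6 :: (List.range' 7 (m - 9) ++ [1, 2])) 5 m 4
    (List.range' 5 (m - 7) ++ [3, 2, 1]) (by simp; omega)
    (by
      have h3 : (3 :: 4 :: 6 :: (List.range' 7 (m - 9) ++ [1, 2, 5, m])).Nodup := by
        rw [List.nodup_cons]
        refine ⟨?_, hm1nd⟩
        simp only [List.mem_cons, List.mem_append, List.mem_range'_1, List.not_mem_nil, or_false]
        omega
      simpa using h3)
    (by
      have h3 : (3 :: 4 :: 6 :: (List.range' 7 (m - 9) ++ [1, 2, 5, m])).Nodup := by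
        rw [List.nodup_cons]
        refine ⟨?_, hm1nd⟩
        simp only [List.mem_cons, List.mem_append, List.mem_range'_1, List.not_mem_nil, or_false]
        omega
      refine (List.perm_ext_iff_of_nodup hend (by simpa using h3)).2 fun a => ?_
      simp only [List.mem_cons, List.mem_append, List.mem_range'_1, List.not_mem_nil, or_false]
      omega) (by omega)
  have hBs : (3 :: 4 :: 6 :: (List.range' 7 (m - 9) ++ [1, 2])) ++ [5, m]
      = 3 :: 4 :: 6 :: (List.range' 7 (m - 9) ++ [1, 2, 5, m]) := by simp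
  rw [hBs] at hB
  have hX := PVf.merge (x := m - 2) hA hB (by
    intro h3
    have h4 := hmem (m - 2)
    simp only [List.mem_cons, List.mem_append, List.not_mem_nil, or_false] at h3 h4
    rcases h3 with (h3 | h3 | h3) | h3
    · have := h4.1 (Or.inl h3)
      omega
    · have := h4.1 (Or.inr h3)
      omega
    · omega
    · omega) (by simp)
  refine ⟨mg (m - 2) (mg 3 A1 A2) B, ?_, ?_, ?_, ?_⟩
  · have e1 : σ' ++ [p, 2] ++ [3] ++ [m - 2] = σ' ++ [p] ++ [2, 3, m - 2] := by simp
    rw [e1] at hX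
    exact hX
  · have hA20 := zero_list hA2 2 _ rfl
    have hB0 := zero_list hB 3 _ rfl
    show (A1 1 ++ (A2 0).map (insert 3)) ++ (B 0).map (insert (m - 2)) = _
    rw [hA11, hA20, hB0]
    have e1 : σ' ++ [p] ++ [2, 3, m - 2] = (σ' ++ [p, 2]) ++ [3, m - 2] := by simp
    have e2 : σ' ++ [p, 2] ++ [3] = (σ' ++ [p]) ++ [2, 3] := by simp
    have e3 : σ' ++ [p] ++ [2] = σ' ++ [p, 2] := by simp
    rw [e1, walk_snoc3 (σ' ++ [p, 2]) 3 (m - 2), e2, walk_snoc3 (σ' ++ [p]) 2 3, e3]
    have f1 : (insert 3 {2} : Finset ℕ) = {2, 3} := by ext; simp; tauto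
    have f2 : (insert (m - 2) {3} : Finset ℕ) = {3, m - 2} := by ext; simp; tauto
    simp only [List.map_cons, List.map_nil, f1, f2]
    rfl
  · have h3 := hA2.head 1 (by simp)
    have h4 := List.mem_of_mem_head? (Option.mem_def.2 h3)
    show _ ∈ (A1 2 ++ (A2 1).map (insert 3)) ++ (B 1).map (insert (m - 2))
    refine List.mem_append_left _ (List.mem_append_right _ ?_)
    rw [List.mem_map]
    refine ⟨_, h4, ?_⟩
    ext a
    simp
    tauto
  · have h3 := hA2.head 2 (by simp)
    have h4 := List.mem_of_mem_head? (Option.mem_def.2 h3)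
    show _ ∈ (A1 3 ++ (A2 2).map (insert 3)) ++ (B 2).map (insert (m - 2))
    refine List.mem_append_left _ (List.mem_append_right _ ?_)
    rw [List.mem_map]
    refine ⟨_, h4, ?_⟩
    ext a
    simp
    tauto

end Pool.Agent.Helper722.FX
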