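import Mathlib
import Pool.Agent.Helper722.FX.CS
import Pool.Agent.Helper732.FT2.A3

set_option autoImplicit false

namespace Pool.Agent.Helper722.FX

open Pool.Agent.Helper605.FT Pool.Agent.Helper732.FT2

theorem perm_sX_odd (n : ℕ) (hn : 13 ≤ n) :
    ((5 :: 1 :: (n - 1) :: 4 :: List.range' 6 (n - 9)) ++ [2, 3, n - 3]).Perm (sX (n - 1)) := by
  rw [List.perm_ext_iff_of_nodup]
  · intro a
    simp only [sX, List.mem_append, List.mem_cons, List.not_mem_nil, or_false, List.mem_range'_1]
    omega
  · simp only [List.nodup_append, List.nodup_cons, List.mem_cons, List.not_mem_nil, or_false,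
      List.mem_range'_1, List.nodup_nil, List.nodup_range']
    refine ⟨⟨?_, ?_, ?_, ?_, List.nodup_range'⟩, ⟨?_, ?_, not_false, trivial⟩, ?_⟩
    · omega
    · omega
    · omega
    · omega
    · omega
    · omega
    · intro a ha b hb; omega
  · simp only [sX, List.nodup_cons, List.mem_cons, List.mem_range'_1, List.nodup_range']
    refine ⟨?_, ?_, ?_, ?_, ?_, ?_, ?_, List.nodup_range'⟩ <;> omega

theorem perm_sX_even (n : ℕ) (hn : 13 ≤ n) :
    ((4 :: 5 :: 1 :: (n - 1) :: List.range' 6 (n - 9)) ++ [2, 3, n - 3]).Perm (sX (n - 1)) := by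
  refine List.Perm.trans ?_ (perm_sX_odd n hn)
  rw [List.perm_ext_iff_of_nodup]
  · intro a
    simp only [List.mem_append, List.mem_cons, List.not_mem_nil, or_false, List.mem_range'_1]
    omega
  · simp only [List.nodup_append, List.nodup_cons, List.mem_cons, List.not_mem_nil, or_false,
      List.mem_range'_1, List.nodup_nil, List.nodup_range']
    refine ⟨⟨?_, ?_, ?_, ?_, List.nodup_range'⟩, ⟨?_, ?_, not_false, trivial⟩, ?_⟩
    · omega
    · omega
    · omega
    · omega
    · omega
    · omega
    · intro a ha b hb; omega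
  · simp only [List.nodup_append, List.nodup_cons, List.mem_cons, List.not_mem_nil, or_false,
      List.mem_range'_1, List.nodup_nil, List.nodup_range']
    refine ⟨⟨?_, ?_, ?_, ?_, List.nodup_range'⟩, ⟨?_, ?_, not_false, trivial⟩, ?_⟩
    · omega
    · omega
    · omega
    · omega
    · omega
    · omega
    · intro a ha b hb; omega

theorem last_range {a b c d k : ℕ} (hk : 1 ≤ k) :
    (a :: b :: c :: d :: List.range' 6 k).getLast? ≠ some 1 := by
  obtain ⟨j, rfl⟩ : ∃ j, k = j + 1 := ⟨k - 1, by omega⟩
  rw [List.range'_1_concat]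
  intro h
  have : (a :: b :: c :: d :: (List.range' 6 j ++ [6 + j])) =
    (a :: b :: c :: d :: List.range' 6 j) ++ [6 + j] := by simp
  rw [this, List.getLast?_append] at h
  simp at h
  omega

theorem c_SF (hbase : ∃ c, BF 12 c) (n : ℕ) (hn : 13 ≤ n) : ∃ c, CSide n (SF n) c := by
  unfold SF
  by_cases h : n % 2 = 1
  · rw [if_pos h]
    have := c_side_final hbase n hn _ (perm_sX_odd n hn) (by simp) (last_range (by omega))
    simpa using this
  · rw [if_neg h]
    have := c_side_final hbase n hn _ (perm_sX_even n hn) (by simp) (last_range (by omega))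
    simpa using this

end Pool.Agent.Helper722.FX
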